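import Pool.Agent.Lib.MP_bd65ca_an_F.Defs
import Pool.Agent.Lib.MP_bd65ca_an.Oct.Disc

/-!
# Bipyramids: the inequality on a line

PROOF. Let `g u = f u + ε`; by `Oct.H_sq_sum` (n = N) `f u + ε = ‖H (2 * N) x u‖ ^ 2`.
Interpolation at the `2 N` nodes `u_t = sg N t`, `t` odd (`e^{2 N i u_t} = -1`; as `l` runs through
`range (2 * N)` the nodes `nd (2 * N) l = π (2 l + 1) / (2 N)` are `sg N (2 l + 1)`; see `sum_odd`
in Oct/Comb.lean for the reindexing with modulus `2 n`, `n = 2 * N`): by orthogonality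
(`Lin.node_sum`, `Lin.pars` in Oct/Lin.lean) `H x 0 = ∑_k x k = ∑_t κ_t * H x u_t` with
`κ_t = (1 / (2 N)) ∑_{k < 2 N} e^{-i k u_t}` (this is `Lin.pars` with `y k = 1`), and
`‖κ_t‖ ^ 2 = kap N t` because `κ_t (1 - e^{-i u_t}) = (1 / (2 N)) * 2` (`geom_sum`,
`e^{-2 N i u_t} = -1`) and `‖1 - e^{-i u}‖ ^ 2 = 4 sin(u/2) ^ 2` (`Lin.norm_one_sub`),
`sin (u_t / 2) ≠ 0`.  Cauchy-Schwarz with the weights `a t`:
`(∑ ‖κ_t‖ ‖h_t‖)^2 ≤ (∑ ‖κ_t‖^2 / a_t) (∑ a_t ‖h_t‖^2)`. Then `ε → 0`.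
-/

open MeasureTheory FourierTransform Pointwise Set Finset
open scoped RealInnerProductSpace

namespace Pool.Agent.MPbd65ca.Bp

open Pool.Agent.MPbd65ca.Oct

/-- Sums over the odd residues. -/
theorem sum_od {N : ℕ} [NeZero N] (f : ZMod (4 * N) → ℝ) :
    ∑ t with par N t = 1, f t = ∑ l ∈ range (2 * N), f ((2 * l + 1 : ℕ) : ZMod (4 * N)) := by
  have hr : range (4 * N) = range (2 * (2 * N)) := by rw [show 4 * N = 2 * (2 * N) by ring]
  rw [Finset.sum_filter, ← Comb.sum_range_zmod (fun t => if par N t = 1 then f t else 0),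
    hr, Comb.sum_range_two_mul]
  refine Finset.sum_congr rfl fun j _ => ?_
  have h1 : par N ((2 * j : ℕ) : ZMod (4 * N)) ≠ 1 := by
    rw [map_natCast, Nat.cast_mul, Nat.cast_ofNat, Comb.two_zero, zero_mul]
    decide
  have h2 : par N ((2 * j + 1 : ℕ) : ZMod (4 * N)) = 1 := by
    rw [map_natCast, Nat.cast_add, Nat.cast_mul, Nat.cast_ofNat, Comb.two_zero, zero_mul,
      zero_add, Nat.cast_one]
  rw [if_neg h1, if_pos h2, zero_add]

theorem sg_od {N : ℕ} [NeZero N] {l : ℕ} (hl : l < 2 * N) :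
    sg N ((2 * l + 1 : ℕ) : ZMod (4 * N)) = nd (2 * N) l := by
  have h1 : (((2 * l + 1 : ℕ) : ZMod (4 * N))).val = 2 * l + 1 :=
    ZMod.val_cast_of_lt (by omega)
  rw [sg, nd, h1]
  push_cast
  ring

private theorem cs_mid {N : ℕ} (hN : 0 < N) (x : ℕ → ℂ) {b : ℕ → ℝ}
    (hb : ∀ l ∈ range (2 * N), 0 < b l) :
    ‖H (2 * N) x 0‖ ^ 2 ≤ (∑ l ∈ range (2 * N),
        1 / (4 * (N : ℝ) ^ 2 * Real.sin (nd (2 * N) l / 2) ^ 2) / b l) *
      ∑ l ∈ range (2 * N), b l * ‖H (2 * N) x (nd (2 * N) l)‖ ^ 2 := by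
  have hm : 0 < 2 * N := by omega
  have hN' : (0 : ℝ) < N := by exact_mod_cast hN
  set S : ℕ → ℂ := fun l => H (2 * N) (fun _ => 1) (nd (2 * N) l) with hS
  have key : ∀ l, 1 / (4 * (N : ℝ) ^ 2 * Real.sin (nd (2 * N) l / 2) ^ 2) =
      ‖S l‖ ^ 2 / (2 * N) ^ 2 := by
    intro l
    set v := nd (2 * N) l with hv
    set ω : ℂ := Complex.exp (Complex.I * v) with hω
    have hωm : ω ^ (2 * N) = -1 := Lin.nd_pow hm l
    have eS : S l * (1 - ω) = 2 := by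
      simp only [hS, Lin.H_eq_pow, one_mul]
      rw [Lin.sum_pow, hωm]
      norm_num
    have nS : ‖S l‖ ^ 2 * Real.sin (v / 2) ^ 2 = 1 := by
      have h1 : ‖S l‖ ^ 2 * ‖1 - ω‖ ^ 2 = 4 := by
        rw [← mul_pow, ← norm_mul, eS]
        norm_num
      rw [hω, Lin.norm_one_sub] at h1
      linarith
    have hs : Real.sin (v / 2) ^ 2 ≠ 0 := by
      intro h0
      rw [h0, mul_zero] at nS
      exact zero_ne_one nS
    rw [div_eq_div_iff (by positivity) (by positivity)]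
    linear_combination (-4 * (N : ℝ) ^ 2) * nS
  have h0 : (2 * N : ℝ) * ‖H (2 * N) x 0‖ ≤
      ∑ l ∈ range (2 * N), ‖H (2 * N) x (nd (2 * N) l)‖ * ‖S l‖ := by
    have h1 := Lin.pars hm x (fun _ => 1)
    have h2 : H (2 * N) x 0 = ∑ k ∈ range (2 * N), x k * (starRingEnd ℂ) 1 := by
      simp [H]
    rw [← h2] at h1
    have h3 : (2 * N : ℝ) * ‖H (2 * N) x 0‖ = ‖((2 * N : ℕ) : ℂ) * H (2 * N) x 0‖ := by
      rw [norm_mul, Complex.norm_natCast]
      push_cast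
      ring
    rw [h3, ← h1]
    refine (norm_sum_le _ _).trans (le_of_eq ?_)
    refine Finset.sum_congr rfl fun l _ => ?_
    rw [norm_mul, Complex.norm_conj]
  have h1 : (∑ l ∈ range (2 * N), ‖H (2 * N) x (nd (2 * N) l)‖ * ‖S l‖) ^ 2 ≤
      (∑ l ∈ range (2 * N), ‖S l‖ ^ 2 / b l) *
        ∑ l ∈ range (2 * N), b l * ‖H (2 * N) x (nd (2 * N) l)‖ ^ 2 := by
    refine Finset.sum_sq_le_sum_mul_sum_of_sq_le_mul _ (fun l hl => ?_) (fun l hl => ?_)
      fun l hl => ?_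
    · exact div_nonneg (sq_nonneg _) (hb l hl).le
    · exact mul_nonneg (hb l hl).le (sq_nonneg _)
    · have := (hb l hl).ne'
      refine le_of_eq ?_
      field_simp
  have h2 : ∑ l ∈ range (2 * N), 1 / (4 * (N : ℝ) ^ 2 * Real.sin (nd (2 * N) l / 2) ^ 2) / b l =
      (∑ l ∈ range (2 * N), ‖S l‖ ^ 2 / b l) / (2 * N) ^ 2 := by
    rw [Finset.sum_div]
    refine Finset.sum_congr rfl fun l _ => ?_
    rw [key l, div_right_comm]
  have h3 : ((2 * N : ℝ) * ‖H (2 * N) x 0‖) ^ 2 ≤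
      (∑ l ∈ range (2 * N), ‖H (2 * N) x (nd (2 * N) l)‖ * ‖S l‖) ^ 2 := by
    gcongr
  have h4 := h3.trans h1
  have h5 : (0 : ℝ) < (2 * N) ^ 2 := by positivity
  rw [h2, div_mul_eq_mul_div, le_div_iff₀ h5]
  linarith

theorem cs_line {N : ℕ} [NeZero N] {f : ℝ → ℝ} (hf : TP (2 * N - 1) f) (h0 : ∀ u, 0 ≤ f u)
    {a : ZMod (4 * N) → ℝ} (ha : ∀ t, par N t = 1 → 0 < a t) :
    f 0 ≤ (∑ t with par N t = 1, kap N t / a t) * ∑ t with par N t = 1, a t * f (sg N t) := by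
  have hN : 0 < N := Nat.pos_of_ne_zero (NeZero.ne N)
  set A : ℝ := ∑ t with par N t = 1, a t with hA
  set K : ℝ := ∑ t with par N t = 1, kap N t / a t with hK
  have hA0 : 0 ≤ A := Finset.sum_nonneg fun t ht => (ha t (Finset.mem_filter.1 ht).2).le
  have hK0 : 0 ≤ K := Finset.sum_nonneg fun t ht =>
    div_nonneg (by unfold kap; positivity) (ha t (Finset.mem_filter.1 ht).2).le
  have hb : ∀ l ∈ range (2 * N), 0 < a ((2 * l + 1 : ℕ) : ZMod (4 * N)) := by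
    intro l _
    refine ha _ ?_
    rw [map_natCast, Nat.cast_add, Nat.cast_mul, Nat.cast_ofNat, Comb.two_zero, zero_mul,
      zero_add, Nat.cast_one]
  have hε : ∀ ε : ℝ, 0 < ε →
      f 0 + ε ≤ K * (∑ t with par N t = 1, a t * f (sg N t)) + ε * (K * A) := by
    intro ε hε
    obtain ⟨x, hx⟩ := H_sq_sum hN hf h0 hε
    have h1 := cs_mid hN x hb
    rw [← hx 0] at h1
    have h2 : ∑ l ∈ range (2 * N), 1 / (4 * (N : ℝ) ^ 2 * Real.sin (nd (2 * N) l / 2) ^ 2) /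
        a ((2 * l + 1 : ℕ) : ZMod (4 * N)) = K := by
      rw [hK, sum_od (fun t => kap N t / a t)]
      refine Finset.sum_congr rfl fun l hl => ?_
      rw [kap, sg_od (Finset.mem_range.1 hl)]
    have h3 : ∑ l ∈ range (2 * N), a ((2 * l + 1 : ℕ) : ZMod (4 * N)) *
        ‖H (2 * N) x (nd (2 * N) l)‖ ^ 2 =
          (∑ t with par N t = 1, a t * f (sg N t)) + ε * A := by
      rw [hA, Finset.mul_sum, ← Finset.sum_add_distrib,
        sum_od (fun t => a t * f (sg N t) + ε * a t)]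
      refine Finset.sum_congr rfl fun l hl => ?_
      rw [sg_od (Finset.mem_range.1 hl), ← hx]
      ring
    rw [h2, h3] at h1
    linarith
  refine le_of_forall_pos_le_add fun δ hδ => ?_
  have hKA : 0 ≤ K * A := mul_nonneg hK0 hA0
  have h1 := hε (δ / (K * A + 1)) (by positivity)
  have h2 : δ / (K * A + 1) * (K * A) ≤ δ := by
    rw [div_mul_eq_mul_div, div_le_iff₀ (by positivity)]
    nlinarith
  have h3 : 0 ≤ δ / (K * A + 1) := by positivity
  linarith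

end Pool.Agent.MPbd65ca.Bp
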