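import Pool.Agent.Lib.MP_bd65ca_an.Oct.Trig
import Pool.Agent.Lib.MP_bd65ca_an.Gap

/-!
# The Turán problem for bipyramids over parallelepipeds: definitions
-/

open MeasureTheory FourierTransform Pointwise Set Finset
open scoped RealInnerProductSpace

namespace Pool.Agent.MPbd65ca.Bp

open Pool.Agent.MPbd65ca.Oct

/-- The standard bipyramid over a cube. -/
def bip (d : ℕ) : Set (E (d + 1)) :=
  {x | |x (Fin.last d)| ≤ 1 ∧ ∀ i : Fin d, |x i.castSucc| + |x (Fin.last d)| ≤ 1}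

/-- The parity of a residue modulo `4 N`. -/
def par (N : ℕ) : ZMod (4 * N) →+* ZMod 2 := ZMod.castHom (Dvd.intro (2 * N) (by ring)) (ZMod 2)

/-- The nodes. -/
noncomputable def sg (N : ℕ) (k : ZMod (4 * N)) : ℝ := Real.pi * (k.val : ℝ) / (2 * N)

/-- The squares of the values of the kernel. -/
noncomputable def kap (N : ℕ) (k : ZMod (4 * N)) : ℝ := 1 / (4 * (N : ℝ) ^ 2 * Real.sin (sg N k / 2) ^ 2)

/-- The kernels of the induction. -/
noncomputable def KK (N : ℕ) [NeZero N] : ℕ → ZMod (4 * N) → ℝ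
  | 0, y => if y = 0 then 1 else 0
  | j + 1, y => 1 / 2 * (KK N j y + ∑ t with par N t = 1, kap N t * KK N j (y + 2 * t))

/-- Convolution with the kernel. -/
noncomputable def cv (N : ℕ) [NeZero N] (d : ℕ) (m : ZMod (4 * N) → ℝ) (k : ZMod (4 * N)) : ℝ :=
  ∑ k', KK N d (k - k') * m k'

/-- Nonnegative trigonometric polynomials in `d + 1` variables `x`, `s` which have degree at most
`2 N - 1` in all directions `e i + e s`, `e i - e s`. -/
structure Tg (d N : ℕ) (p : (Fin d → ℝ) → ℝ → ℝ) : Prop where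
  nonneg : ∀ x s, 0 ≤ p x s
  per : ∀ x s, p x (s + 2 * Real.pi) = p x s
  line : ∀ x s i (σ : ℝ), σ = 1 ∨ σ = -1 →
    TP (2 * N - 1) (fun t => p (Function.update x i t) (s + σ * t))

/-- The sum over the grid: odd nodes for the variables `x`, nodes of parity `c` for `s`. -/
noncomputable def gsum (d N : ℕ) [NeZero N] (p : (Fin d → ℝ) → ℝ → ℝ) (c : ZMod 2) : ℝ :=
  ∑ X : Fin d → ZMod (4 * N), if (∀ i, par N (X i) = 1) then
    ∑ k with par N k = c, p (fun i => sg N (X i)) (sg N k) else 0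

/-- Dirichlet kernels. -/
noncomputable def Dk (m : ℕ) (u : ℝ) : ℝ := ∑ j ∈ Ioo (-(m : ℤ)) m, Real.cos (j * u)

/-- The periodization of `F`. -/
noncomputable def PF (d N : ℕ) (F : E (d + 1) → ℝ) (x : Fin d → ℝ) (s : ℝ) : ℝ :=
  ∫ w, F w * ((∏ i, Dk (2 * N) (x i - 2 * Real.pi / (2 * N - 1) * w i.castSucc)) *
    Dk (2 * N) (s - 2 * Real.pi / (2 * N - 1) * w (Fin.last d)))

/-- The indices. -/
noncomputable def Bx (d N : ℕ) : Finset (Fin (d + 1) → ℤ) :=
  Fintype.piFinset fun _ => Ioo (-((2 * N : ℕ) : ℤ)) ((2 * N : ℕ) : ℤ)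

end Pool.Agent.MPbd65ca.Bp
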