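import Pool.Agent.Lib.MP_bd65ca_an_F.Main
import Pool.Agent.Lib.MP_bd65ca_an_Z.Inv

/-!
# Bipyramids over parallelepipeds

PROOF. `turan_lin_eq`: by `cls_trivial`/`turan_le_integral` `turan K ≤ 2 ^ d / volume.real K` always; if
it were `<`, then `turan_lin` for `A.symm` (and the body `A '' K`, `body_lin`) would give
`turan (A '' K) < 2 ^ d / volume.real (A '' K)`, a contradiction.
`bipyramid_eq`: the convex hull of `P ∪ {v, -v}` is the image of `bip d` under the linear map
`A x = ∑ j, x j • g j`: the image is convex and contains `P` (`x last = 0`) and `± v`; conversely, if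
`x ∈ bip d`, `τ = x last`, and `|τ| < 1` then `A x = (1 - |τ|) • (A x') + |τ| • (± v)` with
`x' i = x i / (1 - |τ|)`, `|x' i| ≤ 1`; if `|τ| = 1` then `A x = ± v`.
-/

open MeasureTheory FourierTransform Pointwise Set Finset Filter Topology
open scoped RealInnerProductSpace

namespace Pool.Agent.MPbd65ca.Bp

open Pool.Agent.MPbd65ca.Zo

theorem turan_lin_eq {n : ℕ} (A : E n ≃L[ℝ] E n) {K : Set (E n)} (hK : IsBody K)
    (h : turan K = 2 ^ n / volume.real K) :
    turan (A '' K) = 2 ^ n / volume.real (A '' K) := by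
  obtain ⟨F, hF, hi⟩ := cls_trivial (body_lin A hK)
  have hle := (turan_le_integral hF).trans hi
  by_contra hne
  exact absurd (turan_lin A hK (lt_of_le_of_ne hle hne)) (by rw [h]; exact lt_irrefl _)

/-- The bipyramid with the apexes `g last`, `-g last` over the parallelepiped spanned by the other
vectors. -/
def bipyramid {d : ℕ} (g : Fin (d + 1) → E (d + 1)) : Set (E (d + 1)) :=
  convexHull ℝ ({x | ∃ c : Fin d → ℝ, (∀ i, |c i| ≤ 1) ∧ x = ∑ i, c i • g i.castSucc} ∪
    {g (Fin.last d), -g (Fin.last d)})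

private theorem Final_equiv {d : ℕ} {g : Fin (d + 1) → E (d + 1)}
    (hg : LinearIndependent ℝ g) :
    ∃ A : E (d + 1) ≃L[ℝ] E (d + 1), ∀ x : E (d + 1), A x = ∑ j, x j • g j := by
  have hcard : Fintype.card (Fin (d + 1)) = Module.finrank ℝ (E (d + 1)) := by simp
  let b := basisOfLinearIndependentOfCardEqFinrank hg hcard
  have hb : ⇑b = g := coe_basisOfLinearIndependentOfCardEqFinrank hg hcard
  let L : E (d + 1) ≃ₗ[ℝ] E (d + 1) :=
    (EuclideanSpace.equiv (Fin (d + 1)) ℝ).toLinearEquiv.trans b.equivFun.symm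
  refine ⟨L.toContinuousLinearEquiv, fun x => ?_⟩
  have : L x = ∑ j, x j • b j := by
    show b.equivFun.symm _ = _
    rw [Module.Basis.equivFun_symm_apply]
    rfl
  rw [hb] at this
  exact this

theorem bipyramid_eq {d : ℕ} {g : Fin (d + 1) → E (d + 1)} (hg : LinearIndependent ℝ g) :
    ∃ A : E (d + 1) ≃L[ℝ] E (d + 1), bipyramid g = A '' bip d := by
  obtain ⟨A, hA⟩ := Final_equiv hg
  refine ⟨A, Subset.antisymm ?_ ?_⟩
  · refine convexHull_min ?_ (body_lin A (isBody_bip d)).convex
    have key : ∀ (c : Fin d → ℝ) (t : ℝ), |t| ≤ 1 → (∀ i, |c i| + |t| ≤ 1) →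
        ∑ i, c i • g i.castSucc + t • g (Fin.last d) ∈ A '' bip d := by
      intro c t ht hc
      refine ⟨WithLp.toLp 2 (Fin.snoc c t : Fin (d + 1) → ℝ), ⟨?_, fun i => ?_⟩, ?_⟩
      · simpa using ht
      · simpa using hc i
      · rw [hA, Fin.sum_univ_castSucc]
        simp
    rintro x (⟨c, hc, rfl⟩ | hx | hx)
    · simpa using key c 0 (by simp) (by simpa using hc)
    · rw [hx]
      simpa using key 0 1 (by simp) (by simp)
    · rw [mem_singleton_iff.1 hx]
      simpa using key 0 (-1) (by simp) (by simp)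
  · rintro _ ⟨x, ⟨hx1, hx2⟩, rfl⟩
    set τ : ℝ := x (Fin.last d) with hτ
    set v : E (d + 1) := g (Fin.last d) with hv
    have hP : ∑ i : Fin d, (x i.castSucc / (1 - |τ|)) • g i.castSucc ∈ bipyramid g := by
      refine subset_convexHull ℝ _ (Or.inl ⟨_, fun i => ?_, rfl⟩)
      rw [abs_div]
      refine div_le_one_of_le₀ ?_ (abs_nonneg _)
      have h1 : (0 : ℝ) ≤ 1 - |τ| := sub_nonneg.2 hx1
      rw [abs_of_nonneg h1]
      linarith [hx2 i]
    have hw : ∃ w ∈ bipyramid g, |τ| • w = τ • v := by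
      rcases le_total 0 τ with h | h
      · exact ⟨v, subset_convexHull ℝ _ (Or.inr (Or.inl rfl)), by rw [abs_of_nonneg h]⟩
      · exact ⟨-v, subset_convexHull ℝ _ (Or.inr (Or.inr rfl)), by
          rw [abs_of_nonpos h, neg_smul_neg]⟩
    obtain ⟨w, hw1, hw2⟩ := hw
    have := convex_convexHull ℝ _ hP hw1 (sub_nonneg.2 hx1) (abs_nonneg τ) (by ring)
    have e : A x = (1 - |τ|) • ∑ i : Fin d, (x i.castSucc / (1 - |τ|)) • g i.castSucc +
        |τ| • w := by
      rw [hw2, hA, Fin.sum_univ_castSucc, Finset.smul_sum]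
      congr 1
      refine Finset.sum_congr rfl fun i _ => ?_
      rw [smul_smul]
      congr 1
      rcases eq_or_ne (1 - |τ|) 0 with h | h
      · have h2 := hx2 i
        have : |x i.castSucc| ≤ 0 := by linarith
        rw [abs_nonpos_iff.1 this]
        simp
      · rw [mul_div_cancel₀ _ h]
    rw [e]
    exact this

theorem turan_bipyramid {d : ℕ} {g : Fin (d + 1) → E (d + 1)} (hg : LinearIndependent ℝ g) :
    IsBody (bipyramid g) ∧
      turan (bipyramid g) = 2 ^ (d + 1) / volume.real (bipyramid g) := by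
  obtain ⟨A, hA⟩ := bipyramid_eq hg
  rw [hA]
  exact ⟨body_lin A (isBody_bip d), turan_lin_eq A (isBody_bip d) (turan_bip d)⟩

end Pool.Agent.MPbd65ca.Bp
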