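import Pool.Agent.Lib.MP_bd65ca_an_F.Kap

/-!
# Bipyramids: the induction

PROOF. `sg_add`: `sg N (k + t) = sg N k + sg N t` or minus `2 π` (`ZMod.val_add`), and `per`.
`cv_succ`: for a residue `S` and `σ = ± 1`, with `m_t S' = m (S' - t) + m (S' + t)`:
`∑_t kap N t * cv N d m_t (S + σ t) = 2 * cv N (d + 1) m S`: by definition
`cv N d m_t k = ∑_{k'} (KK N d (k - t - k') + KK N d (k + t - k')) * m k'` (substitute `k' ± t`), so
for
`k = S + t`: `∑_{k'} (KK N d (S - k') + KK N d (S - k' + 2 t)) * m k'`; sum over `t` with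
`∑_t kap N t = 1` (`kap_cos` with `n = 0`) and the definition of `KK N (d + 1)`; for `σ = -1` the
same with
`-2 t`, and `t ↦ -t` (`kap_neg`).
`multi`: induction on `d` for all `p`, `m`, `c`.  `d = 0`: `cv N 0 m k = m k`, so the term is `p 0
(sg N k)`
or `0`; `Fin 0 → _` has one element; the terms with parity `≠ c` vanish.
Step: for `t` odd let `p_t x s = p (Fin.snoc x (sg N t)) s` (again `Tg`: `Function.update` of the
`snoc` at
`castSucc i`, `Fin.snoc_update`), `m_t` as above, parity `c + 1`.  The induction hypothesis for all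
odd
`t`, summed over `t`, has the right side `gsum (d + 1) N p (c + 1 + d)` (`Fin.snocEquiv` or
`Fin.consEquiv`/`Fin.snoc` reindexing of `Fin (d + 1) → ZMod (4 N)`; the function
`fun i => sg N (Fin.snoc X t i) = Fin.snoc (fun i => sg N (X i)) (sg N t)`).  The left side is
`∑_t ∑_{S'} m_t S' / cv N d m_t S' * p (snoc 0 (sg t)) (sg S')
 = ∑_t ∑_S ∑_{σ} m S / cv N d m_t (S + σ t) * p (snoc 0 (sg t)) (sg (S + σ t))`.
For fixed `S` with `m S > 0` and `σ`: `f u = p (update 0 (last) u) (sg S + σ u)` is `TP (2 N - 1)`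
(`hp.line`), nonnegative, and `f (sg t) = p (snoc 0 (sg t)) (sg (S + σ t))` (`sg_add`, `per`;
`sg N (-t) = -sg N t + 2 π` for `t ≠ 0`); `cs_line` with `a t = 1 / cv N d m_t (S + σ t)`, which is
positive
because `cv N d m_t (S + σ t) ≥ KK N d 0 * m S > 0`; the first factor is `2 * cv N (d + 1) m S` by
`cv_succ`.  So `∑_t a t * f (sg t) ≥ f 0 / (2 cv N (d + 1) m S)`, multiply by `m S` and sum over
`σ`, `S`.
`disc`: `m = Pi.single 0 1`, `c = 0`: `cv N d m 0 = KK N d 0`.
-/

open MeasureTheory FourierTransform Pointwise Set Finset Filter Topology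
open scoped RealInnerProductSpace

namespace Pool.Agent.MPbd65ca.Bp

open Pool.Agent.MPbd65ca.Oct

variable {d N : ℕ} [NeZero N]

private theorem Ind_N : (0 : ℝ) < N := by
  exact_mod_cast Nat.pos_of_ne_zero (NeZero.ne N)

private theorem Ind_shift (a b c : ZMod (4 * N)) {σ : ℤ} (h : a = b + σ * c) :
    ∃ q : ℤ, sg N a = sg N b + σ * sg N c + q * (2 * Real.pi) := by
  have hN : (0 : ℝ) < N := Ind_N
  have h1 : ((a.val - b.val - σ * c.val : ℤ) : ZMod (4 * N)) = 0 := by
    push_cast
    rw [ZMod.natCast_zmod_val, ZMod.natCast_zmod_val, ZMod.natCast_zmod_val, h]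
    ring
  rw [ZMod.intCast_zmod_eq_zero_iff_dvd] at h1
  obtain ⟨q, hq⟩ := h1
  have h2 : (a.val : ℝ) = b.val + σ * c.val + 4 * N * q := by
    have h3 : (a.val : ℤ) = b.val + σ * c.val + 4 * N * q := by
      push_cast at hq
      linarith
    exact_mod_cast h3
  refine ⟨q, ?_⟩
  unfold sg
  rw [h2]
  field_simp
  ring

theorem Tg.add_sg {p : (Fin d → ℝ) → ℝ → ℝ} (hp : Tg d N p) (x : Fin d → ℝ)
    (S t : ZMod (4 * N)) : p x (sg N (S + t)) = p x (sg N S + 1 * sg N t) ∧
      p x (sg N (S - t)) = p x (sg N S + (-1) * sg N t) := by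
  have hper : Function.Periodic (p x) (2 * Real.pi) := hp.per x
  constructor
  · obtain ⟨q, hq⟩ := Ind_shift (S + t) S t (σ := 1) (by push_cast; ring)
    rw [hq, hper.int_mul q]
    push_cast
    rfl
  · obtain ⟨q, hq⟩ := Ind_shift (S - t) S t (σ := -1) (by push_cast; ring)
    rw [hq, hper.int_mul q]
    push_cast
    rfl

private theorem Ind_nsum (f : ZMod (4 * N) → ℝ) :
    ∑ t with par N t = 1, f (-t) = ∑ t with par N t = 1, f t := by
  rw [Finset.sum_filter, Finset.sum_filter]
  refine Fintype.sum_equiv (Equiv.neg _) _ _ fun t => ?_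
  have h1 : par N (-t) = par N t := by
    rw [map_neg]
    exact ZMod.neg_eq_self_mod_two _
  rw [Equiv.neg_apply, h1]

private theorem Ind_kap : ∑ t with par N t = 1, kap N t = 1 := by
  have h := kap_cos (N := N) (n := 0) (Nat.zero_le _)
  simpa using h

private theorem Ind_succ (j : ℕ) (y : ZMod (4 * N)) :
    ∑ t with par N t = 1, kap N t * KK N j (y + 2 * t) = 2 * KK N (j + 1) y - KK N j y := by
  have h : KK N (j + 1) y =
    1 / 2 * (KK N j y + ∑ t with par N t = 1, kap N t * KK N j (y + 2 * t)) := rfl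
  rw [h]
  ring

theorem cv_succ (m : ZMod (4 * N) → ℝ) (S : ZMod (4 * N)) :
    ∑ t with par N t = 1, kap N t * cv N d (fun k => m (k - t) + m (k + t)) (S + t) =
      2 * cv N (d + 1) m S ∧
    ∑ t with par N t = 1, kap N t * cv N d (fun k => m (k - t) + m (k + t)) (S - t) =
      2 * cv N (d + 1) m S := by
  have key : ∀ F : ZMod (4 * N) → ZMod (4 * N) → ℝ,
      (∀ t k, F t k = KK N d (S - k) + KK N d (S - k + 2 * t)) →
      ∑ t with par N t = 1, kap N t * ∑ k, F t k * m k = 2 * cv N (d + 1) m S := by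
    intro F hF
    have h1 : ∀ t : ZMod (4 * N), kap N t * ∑ k, F t k * m k =
        ∑ k, (kap N t * KK N d (S - k) + kap N t * KK N d (S - k + 2 * t)) * m k := by
      intro t
      rw [Finset.mul_sum]
      refine Finset.sum_congr rfl fun k _ => ?_
      rw [hF]
      ring
    rw [Finset.sum_congr rfl fun t _ => h1 t, Finset.sum_comm]
    unfold cv
    rw [Finset.mul_sum]
    refine Finset.sum_congr rfl fun k _ => ?_
    rw [← Finset.sum_mul, Finset.sum_add_distrib, ← Finset.sum_mul, Ind_kap, Ind_succ]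
    ring
  have sub : ∀ (g : ZMod (4 * N) → ℝ) (t : ZMod (4 * N)),
      ∑ k, g k * (m (k - t) + m (k + t)) = ∑ k, (g (k + t) + g (k - t)) * m k := by
    intro g t
    simp only [mul_add, add_mul, Finset.sum_add_distrib]
    congr 1
    · refine Fintype.sum_equiv (Equiv.subRight t) _ _ fun k => ?_
      rw [Equiv.subRight_apply, sub_add_cancel]
    · refine Fintype.sum_equiv (Equiv.addRight t) _ _ fun k => ?_
      rw [Equiv.coe_addRight, add_sub_cancel_right]
  constructor
  · rw [← key (fun t k => KK N d (S + t - (k + t)) + KK N d (S + t - (k - t))) (fun t k => by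
      congr 2 <;> ring)]
    refine Finset.sum_congr rfl fun t _ => ?_
    unfold cv
    rw [sub (fun k => KK N d (S + t - k))]
  · have h2 := key (fun t k => KK N d (S - (k)) + KK N d (S - k + 2 * t)) (fun t k => rfl)
    rw [← h2, ← Ind_nsum]
    refine Finset.sum_congr rfl fun t _ => ?_
    unfold cv
    rw [kap_neg]
    congr 1
    have h3 := sub (fun k => KK N d (S - -t - k)) (-t)
    rw [h3]
    refine Finset.sum_congr rfl fun k _ => ?_
    congr 1
    have e1 : S - -t - (k + -t) = S - k + 2 * t := by ring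
    have e2 : S - -t - (k - -t) = S - k := by ring
    rw [e1, e2, add_comm]

private theorem Ind_cv_zero (m : ZMod (4 * N) → ℝ) (k : ZMod (4 * N)) : cv N 0 m k = m k := by
  unfold cv
  have h1 : ∀ k' : ZMod (4 * N), KK N 0 (k - k') * m k' = if k = k' then m k' else 0 := by
    intro k'
    change (if k - k' = 0 then (1 : ℝ) else 0) * m k' = _
    by_cases h : k = k'
    · rw [if_pos h, if_pos (sub_eq_zero.2 h), one_mul]
    · rw [if_neg h, if_neg (sub_ne_zero.2 h), zero_mul]
  rw [Finset.sum_congr rfl fun k' _ => h1 k', Finset.sum_ite_eq, if_pos (Finset.mem_univ _)]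

private theorem Ind_cv_ge {m : ZMod (4 * N) → ℝ} (hm : ∀ k, 0 ≤ m k) (k : ZMod (4 * N)) :
    KK N d 0 * m k ≤ cv N d m k := by
  unfold cv
  have h := Finset.single_le_sum (f := fun k' => KK N d (k - k') * m k')
    (fun k' _ => mul_nonneg (KK_nonneg _ _) (hm k')) (Finset.mem_univ k)
  simpa using h

private theorem Ind_cv_pos {m : ZMod (4 * N) → ℝ} (hm : ∀ k, 0 ≤ m k) {k : ZMod (4 * N)}
    (hk : 0 < m k) : 0 < cv N d m k :=
  lt_of_lt_of_le (mul_pos (KK_zero_pos d) hk) (Ind_cv_ge hm k)

private theorem Ind_cons (a : ℝ) :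
    (Fin.cons a (0 : Fin d → ℝ) : Fin (d + 1) → ℝ) =
      Function.update (0 : Fin (d + 1) → ℝ) 0 a := by
  funext i
  refine Fin.cases ?_ (fun j => ?_) i
  · simp
  · simp [Function.update_apply]

/-- The polynomial with the first variable fixed. -/
private def Ind_p (p : (Fin (d + 1) → ℝ) → ℝ → ℝ) (a : ℝ) (x : Fin d → ℝ) (s : ℝ) : ℝ :=
  p (Fin.cons a x) s

private theorem Ind_Tg {p : (Fin (d + 1) → ℝ) → ℝ → ℝ} (hp : Tg (d + 1) N p) (a : ℝ) :
    Tg d N (Ind_p p a) where
  nonneg x s := hp.nonneg _ _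
  per x s := hp.per _ _
  line x s i σ hσ := by
    have h := hp.line (Fin.cons a x) s i.succ σ hσ
    have h1 : (fun t => Ind_p p a (Function.update x i t) (s + σ * t)) =
        fun t => p (Function.update (Fin.cons a x) i.succ t) (s + σ * t) := by
      funext t
      unfold Ind_p
      rw [Fin.cons_update]
    rw [h1]
    exact h

private theorem Ind_gsum (p : (Fin (d + 1) → ℝ) → ℝ → ℝ) (c : ZMod 2) :
    ∑ t with par N t = 1, gsum d N (Ind_p p (sg N t)) c = gsum (d + 1) N p c := by
  unfold gsum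
  rw [← (Fin.consEquiv (fun _ : Fin (d + 1) => ZMod (4 * N))).sum_comp, Fintype.sum_prod_type,
    Finset.sum_filter]
  refine Finset.sum_congr rfl fun t _ => ?_
  by_cases ht : par N t = 1
  · rw [if_pos ht]
    refine Finset.sum_congr rfl fun X _ => ?_
    have h1 : (∀ i, par N ((Fin.consEquiv (fun _ : Fin (d + 1) => ZMod (4 * N))) (t, X) i) = 1) ↔
        ∀ i, par N (X i) = 1 := by
      rw [Fin.forall_fin_succ]
      simp [Fin.consEquiv, ht]
    simp only [h1]
    congr 1
    refine Finset.sum_congr rfl fun k _ => ?_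
    unfold Ind_p
    congr 1
    funext i
    refine Fin.cases ?_ (fun j => ?_) i <;> simp [Fin.consEquiv]
  · rw [if_neg ht]
    symm
    refine Finset.sum_eq_zero fun X _ => ?_
    rw [if_neg]
    intro h
    exact ht (h 0)

private theorem Ind_point {p : (Fin (d + 1) → ℝ) → ℝ → ℝ} (hp : Tg (d + 1) N p)
    {m : ZMod (4 * N) → ℝ} (hm : ∀ k, 0 ≤ m k) {S : ZMod (4 * N)} (hS : 0 < m S)
    (e : ZMod (4 * N) → ZMod (4 * N)) (σ : ℝ) (hσ : σ = 1 ∨ σ = -1)
    (he : ∀ t, e t = S + t ∨ e t = S - t)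
    (hcv : ∑ t with par N t = 1, kap N t * cv N d (fun k => m (k - t) + m (k + t)) (e t) =
      2 * cv N (d + 1) m S)
    (hpe : ∀ t x, p x (sg N (e t)) = p x (sg N S + σ * sg N t)) :
    m S / cv N (d + 1) m S * p 0 (sg N S) ≤ 2 * ∑ t with par N t = 1,
      m S / cv N d (fun k => m (k - t) + m (k + t)) (e t) *
        Ind_p p (sg N t) 0 (sg N (e t)) := by
  have hpos : ∀ t : ZMod (4 * N), 0 < cv N d (fun k => m (k - t) + m (k + t)) (e t) := by
    intro t
    refine Ind_cv_pos (fun k => add_nonneg (hm _) (hm _)) ?_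
    rcases he t with h | h
    · rw [h, add_sub_cancel_right]
      exact add_pos_of_pos_of_nonneg hS (hm _)
    · rw [h, sub_add_cancel]
      exact add_pos_of_nonneg_of_pos (hm _) hS
  have hpos1 : 0 < cv N (d + 1) m S := Ind_cv_pos hm hS
  have h1 := cs_line (N := N) (hp.line 0 (sg N S) 0 σ hσ) (fun u => hp.nonneg _ _)
    (a := fun t => 1 / cv N d (fun k => m (k - t) + m (k + t)) (e t))
    (fun t _ => one_div_pos.2 (hpos t))
  have h2 : ∑ t with par N t = 1, kap N t /
      (1 / cv N d (fun k => m (k - t) + m (k + t)) (e t)) = 2 * cv N (d + 1) m S := by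
    rw [← hcv]
    refine Finset.sum_congr rfl fun t _ => ?_
    rw [div_div_eq_mul_div, div_one]
  have h3 : Function.update (0 : Fin (d + 1) → ℝ) 0 0 = 0 := by
    rw [Function.update_eq_self_iff]
    rfl
  rw [h2, h3, mul_zero, add_zero] at h1
  have h4 : ∑ t with par N t = 1, m S / cv N d (fun k => m (k - t) + m (k + t)) (e t) *
        Ind_p p (sg N t) 0 (sg N (e t)) = m S * ∑ t with par N t = 1,
      1 / cv N d (fun k => m (k - t) + m (k + t)) (e t) *
        p (Function.update 0 0 (sg N t)) (sg N S + σ * sg N t) := by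
    rw [Finset.mul_sum]
    refine Finset.sum_congr rfl fun t _ => ?_
    unfold Ind_p
    rw [hpe, Ind_cons]
    ring
  rw [h4, div_mul_eq_mul_div, div_le_iff₀ hpos1]
  have h5 := mul_le_mul_of_nonneg_left h1 hS.le
  linarith

theorem multi {p : (Fin d → ℝ) → ℝ → ℝ} (hp : Tg d N p) {m : ZMod (4 * N) → ℝ}
    (hm : ∀ k, 0 ≤ m k) (c : ZMod 2) (hc : ∀ k, par N k ≠ c → m k = 0) :
    ∑ k, m k / cv N d m k * p 0 (sg N k) ≤ gsum d N p (c + d) := by
  induction d generalizing m c with
  | zero =>
    unfold gsum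
    have e0 : ∀ g : (Fin 0 → ZMod (4 * N)) → ℝ, ∑ X, g X = g default :=
      fun g => (Fintype.sum_unique g).trans (congrArg g (Subsingleton.elim _ _))
    rw [e0, if_pos (fun i => Fin.elim0 i), Finset.sum_filter]
    refine Finset.sum_le_sum fun k _ => ?_
    have e1 : (fun i : Fin 0 => sg N ((default : Fin 0 → ZMod (4 * N)) i)) = 0 :=
      Subsingleton.elim _ _
    rw [e1, Ind_cv_zero, Nat.cast_zero, add_zero]
    by_cases hk : par N k = c
    · rw [if_pos hk]
      by_cases h0 : m k = 0
      · rw [h0, zero_div, zero_mul]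
        exact hp.nonneg _ _
      · rw [div_self h0, one_mul]
    · rw [if_neg hk, hc k hk, zero_div, zero_mul]
  | succ d ih =>
    have h1 : ∀ t : ZMod (4 * N), par N t = 1 →
        ∑ k, (m (k - t) + m (k + t)) / cv N d (fun k => m (k - t) + m (k + t)) k *
          Ind_p p (sg N t) 0 (sg N k) ≤ gsum d N (Ind_p p (sg N t)) (c + 1 + d) := by
      intro t ht
      refine ih (Ind_Tg hp (sg N t)) (m := fun k => m (k - t) + m (k + t))
        (fun k => add_nonneg (hm _) (hm _)) (c + 1) fun k hk => ?_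
      have e2 : ∀ a : ZMod 2, a ≠ c + 1 → a - 1 ≠ c ∧ a + 1 ≠ c := by
        clear * -
        revert c
        decide
      have h2 := e2 (par N k) hk
      rw [hc (k - t) (by rw [map_sub, ht]; exact h2.1),
        hc (k + t) (by rw [map_add, ht]; exact h2.2), add_zero]
    have h2 := Finset.sum_le_sum fun t (ht : t ∈ Finset.univ.filter fun t => par N t = 1) =>
      h1 t (Finset.mem_filter.1 ht).2
    rw [Ind_gsum] at h2
    have e3 : c + 1 + (d : ZMod 2) = c + ((d + 1 : ℕ) : ZMod 2) := by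
      push_cast
      ring
    rw [e3] at h2
    refine le_trans ?_ h2
    have h3 : ∀ t : ZMod (4 * N),
        ∑ k, (m (k - t) + m (k + t)) / cv N d (fun k => m (k - t) + m (k + t)) k *
          Ind_p p (sg N t) 0 (sg N k) =
        ∑ S, (m S / cv N d (fun k => m (k - t) + m (k + t)) (S + t) *
            Ind_p p (sg N t) 0 (sg N (S + t)) +
          m S / cv N d (fun k => m (k - t) + m (k + t)) (S - t) *
            Ind_p p (sg N t) 0 (sg N (S - t))) := by
      intro t
      rw [Finset.sum_add_distrib]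
      simp only [add_div, add_mul, Finset.sum_add_distrib]
      congr 1
      · refine Fintype.sum_equiv (Equiv.subRight t) _ _ fun k => ?_
        rw [Equiv.subRight_apply, sub_add_cancel]
      · refine Fintype.sum_equiv (Equiv.addRight t) _ _ fun k => ?_
        rw [Equiv.coe_addRight, add_sub_cancel_right]
    rw [Finset.sum_congr rfl fun t _ => h3 t, Finset.sum_comm]
    refine Finset.sum_le_sum fun S _ => ?_
    rcases (hm S).eq_or_lt with hS | hS
    · rw [← hS]
      simp
    · rw [Finset.sum_add_distrib]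
      have h4 := Ind_point hp hm hS (fun t => S + t) 1 (Or.inl rfl) (fun t => Or.inl rfl)
        (cv_succ m S).1 (fun t x => (hp.add_sg x S t).1)
      have h5 := Ind_point hp hm hS (fun t => S - t) (-1) (Or.inr rfl) (fun t => Or.inr rfl)
        (cv_succ m S).2 (fun t x => (hp.add_sg x S t).2)
      linarith

theorem disc {p : (Fin d → ℝ) → ℝ → ℝ} (hp : Tg d N p) :
    p 0 0 ≤ KK N d 0 * gsum d N p d := by
  classical
  have hm : ∀ k : ZMod (4 * N), 0 ≤ (Pi.single 0 1 : ZMod (4 * N) → ℝ) k := by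
    intro k
    by_cases h : k = 0
    · rw [h, Pi.single_eq_same]
      exact zero_le_one
    · rw [Pi.single_eq_of_ne h]
  have h1 := multi hp hm 0 fun k hk => Pi.single_eq_of_ne (fun h => hk (by rw [h, map_zero])) _
  rw [Finset.sum_eq_single 0 (fun k _ hk => by
    rw [Pi.single_eq_of_ne hk, zero_div, zero_mul]) (fun h => absurd (Finset.mem_univ _) h),
    Pi.single_eq_same, zero_add] at h1
  have h2 : cv N d (Pi.single 0 1 : ZMod (4 * N) → ℝ) 0 = KK N d 0 := by
    unfold cv
    rw [Finset.sum_eq_single 0 (fun k _ hk => by rw [Pi.single_eq_of_ne hk, mul_zero])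
      (fun h => absurd (Finset.mem_univ _) h), Pi.single_eq_same, mul_one, sub_zero]
  have h3 : sg N 0 = 0 := by simp [sg]
  rw [h2, h3, div_mul_eq_mul_div, one_mul, div_le_iff₀ (KK_zero_pos d)] at h1
  linarith

end Pool.Agent.MPbd65ca.Bp
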