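import Pool.Agent.Lib.MP_bd65ca_an_F.CS

/-!
# Bipyramids: the kernels

PROOF. `kap_pos`: `sin (sg N t / 2) ≠ 0` for odd `t` (`0 < sg N t / 2 = π t.val / (4 N) < π`).
`kap_neg`: `sg N (-t) = 2 π - sg N t` for `t ≠ 0`, `sin (π - x) = sin x`.
`KK_nonneg`, `KK_zero_pos`, `KK_neg`: induction (`t ↦ -t` in the sum: `Equiv.neg`).
`kap_cos`: `∑_t kap N t * cos (2 n sg N t) = 1 - 2 n / N` for `n ≤ N`: `kap N t = ‖κ_t‖ ^ 2` with
`κ_t = (1 / (2 N)) ∑_{k < 2 N} e^{-i k u_t}` (see CS.lean), so for `0 ≤ s ≤ 2 N`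
`∑_t ‖κ_t‖ ^ 2 e^{i s u_t} = (1 / (2 N) ^ 2) ∑_{k, l < 2 N} ∑_t e^{i (s - k + l) u_t}`, and
`∑_t e^{i j u_t}` is `2 N`, `-2 N`, `0` if `j = 0`, `j = ± 2 N`, otherwise (`|j| < 4 N`); the
number of
pairs `(k, l)` with `k - l = s` is `2 N - s`, with `k - l = s - 2 N` it is `s`; so the sum is
`((2 N - s) - s) / (2 N) = 1 - s / N`; take `s = 2 n`, and the real part.  (Alternatively: second
difference: `2 cos (s u) - cos ((s + 1) u) - cos ((s - 1) u) = 4 sin (u/2) ^ 2 cos (s u)`, hence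
the sum
`C s` satisfies `2 C s - C (s + 1) - C (s - 1) = (1 / N ^ 2) ∑_t cos (s u_t) = 0` for `0 < s < 2
N`, so `C` is
affine on `0..2 N`, `C 0 = 1` (`= ∑ ‖κ_t‖^2`, from `2 C 0 - 2 C 1 = 2 / N` and symmetry
`C (2 N - s) = - C s` because `e^{2 N i u_t} = -1`: `C N = 0`).  The second way is the shortest:
`C N = 0`, affine, slope `C 1 - C 0 = -1 / N`.)
`KK_closed`: induction on `j` (`y` even): `j = 0`: orthogonality.  Step: with
`KK N j y = (1 / (2 N)) ∑_{n < 2 N} |1 - n / N| ^ j cos (n sg N y)`,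
`∑_t kap N t * cos (n (sg N y + 2 sg N t)) = cos (n sg N y) * ∑_t kap N t cos (2 n sg N t)` (the
sine part
vanishes by `t ↦ -t`), and `1 + ∑_t kap N t cos (2 n sg N t) = 2 |1 - n / N|` for all `0 ≤ n ≤ 2 N`
(for `n ≥ N` use `cos (2 (2 N - n) u_t) = cos (2 n u_t)` since `4 N u_t ∈ 2 π ℤ`).
`cos (n sg N k)` depends only on the residue of `k`: `sg N (k + k') - sg N k - sg N k'` is a
multiple
of `2 π`.
`KK_lim`: `KK N d 0 = (1 / (2 N)) ∑_{n < 2 N} |1 - n / N| ^ d → (1 / 2) ∫_0^2 |1 - u| ^ d = 1 /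
(d + 1)`
(squeeze: `∑_{n < N} (1 - n / N) ^ d / N` and `∑_{0 < n ≤ N} (n / N) ^ d / N` are Riemann sums of
`u ^ d`;
or `tendsto_sum_pow...`; e.g. `n ^ (d+1) / (d+1) ≤ ∑_{k ≤ n} k ^ d ≤ (n + 1) ^ (d+1) / (d+1)` by
induction).
-/

open MeasureTheory FourierTransform Pointwise Set Finset Filter Topology
open scoped RealInnerProductSpace

namespace Pool.Agent.MPbd65ca.Bp

variable {N : ℕ} [NeZero N]

private theorem Kap_N : (0 : ℝ) < N := by
  exact_mod_cast Nat.pos_of_ne_zero (NeZero.ne N)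

private theorem Kap_par (t : ZMod (4 * N)) : par N t = ((t.val : ℕ) : ZMod 2) := by
  conv_lhs => rw [← ZMod.natCast_zmod_val t]
  exact map_natCast _ _

private theorem Kap_odd {t : ZMod (4 * N)} (ht : par N t = 1) : Odd t.val := by
  rw [Kap_par] at ht
  exact ZMod.natCast_eq_one_iff_odd.1 ht

omit [NeZero N] in
private theorem Kap_ne {t : ZMod (4 * N)} (ht : par N t = 1) : t ≠ 0 := by
  rintro rfl
  rw [map_zero] at ht
  exact zero_ne_one ht

private theorem Kap_sin {t : ZMod (4 * N)} (ht : par N t = 1) :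
    0 < Real.sin (sg N t / 2) := by
  have hN : (0 : ℝ) < N := Kap_N
  have h1 : 0 < t.val := Nat.pos_of_ne_zero fun h => Kap_ne ht ((ZMod.val_eq_zero t).1 h)
  have h2 : t.val < 4 * N := ZMod.val_lt t
  have h1' : (0 : ℝ) < t.val := by exact_mod_cast h1
  have h2' : (t.val : ℝ) < 4 * N := by exact_mod_cast h2
  have hpi := Real.pi_pos
  apply Real.sin_pos_of_pos_of_lt_pi
  · unfold sg
    positivity
  · unfold sg
    rw [div_div, div_lt_iff₀ (by positivity)]
    nlinarith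

private theorem Kap_sgneg {t : ZMod (4 * N)} (h : t ≠ 0) :
    sg N (-t) = 2 * Real.pi - sg N t := by
  have hN : (0 : ℝ) < N := Kap_N
  unfold sg
  rw [ZMod.neg_val, if_neg h, Nat.cast_sub (ZMod.val_lt t).le]
  push_cast
  field_simp
  ring

theorem kap_pos {t : ZMod (4 * N)} (ht : par N t = 1) : 0 < kap N t := by
  have hs := Kap_sin ht
  have hN : (0 : ℝ) < N := Kap_N
  unfold kap
  positivity

theorem kap_neg (t : ZMod (4 * N)) : kap N (-t) = kap N t := by
  by_cases h : t = 0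
  · rw [h, neg_zero]
  · have h1 : sg N (-t) / 2 = Real.pi - sg N t / 2 := by
      rw [Kap_sgneg h]
      ring
    unfold kap
    rw [h1, Real.sin_pi_sub]

private theorem Kap_nsum (f : ZMod (4 * N) → ℝ) :
    ∑ t with par N t = 1, f (-t) = ∑ t with par N t = 1, f t := by
  rw [Finset.sum_filter, Finset.sum_filter]
  refine Fintype.sum_equiv (Equiv.neg _) _ _ fun t => ?_
  have h1 : par N (-t) = par N t := by
    rw [map_neg]
    exact ZMod.neg_eq_self_mod_two _
  rw [Equiv.neg_apply, h1]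

private theorem Kap_succ (j : ℕ) (y : ZMod (4 * N)) : KK N (j + 1) y =
    1 / 2 * (KK N j y + ∑ t with par N t = 1, kap N t * KK N j (y + 2 * t)) := rfl

theorem KK_nonneg (j : ℕ) (y : ZMod (4 * N)) : 0 ≤ KK N j y := by
  induction j generalizing y with
  | zero =>
    change 0 ≤ (if y = 0 then (1 : ℝ) else 0)
    split_ifs
    · exact zero_le_one
    · exact le_rfl
  | succ j ih =>
    rw [Kap_succ]
    exact mul_nonneg (by norm_num) (add_nonneg (ih y) (Finset.sum_nonneg fun t ht =>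
      mul_nonneg (kap_pos (Finset.mem_filter.1 ht).2).le (ih _)))

theorem KK_zero_pos (j : ℕ) : 0 < KK N j 0 := by
  induction j with
  | zero =>
    change 0 < (if (0 : ZMod (4 * N)) = 0 then (1 : ℝ) else 0)
    rw [if_pos rfl]
    exact zero_lt_one
  | succ j ih =>
    rw [Kap_succ]
    exact mul_pos (by norm_num) (add_pos_of_pos_of_nonneg ih (Finset.sum_nonneg fun t ht =>
      mul_nonneg (kap_pos (Finset.mem_filter.1 ht).2).le (KK_nonneg _ _)))

theorem KK_neg (j : ℕ) (y : ZMod (4 * N)) : KK N j (-y) = KK N j y := by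
  induction j generalizing y with
  | zero =>
    change (if -y = 0 then (1 : ℝ) else 0) = if y = 0 then (1 : ℝ) else 0
    simp only [neg_eq_zero]
  | succ j ih =>
    rw [Kap_succ, Kap_succ, ih, ← Kap_nsum (fun t => kap N t * KK N j (-y + 2 * t))]
    congr 2
    refine Finset.sum_congr rfl fun t _ => ?_
    have h1 : -y + 2 * -t = -(y + 2 * t) := by ring
    rw [kap_neg, h1, ih]

private theorem Kap_D {s : ℕ} (hs : 0 < s) (hs' : s < 2 * N) :
    ∑ t with par N t = 1, Real.cos (s * sg N t) = 0 := by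
  have hN : (0 : ℝ) < N := Kap_N
  have hpi := Real.pi_pos
  rw [sum_od]
  set a : ℝ := s * Real.pi / (2 * N) with ha
  have hs1 : (0 : ℝ) < s := by exact_mod_cast hs
  have hs2 : (s : ℝ) < 2 * N := by exact_mod_cast hs'
  have hsin : 0 < Real.sin a := by
    apply Real.sin_pos_of_pos_of_lt_pi
    · positivity
    · rw [ha, div_lt_iff₀ (by positivity)]
      nlinarith
  have h1 : ∀ l ∈ range (2 * N), Real.cos (s * sg N ((2 * l + 1 : ℕ) : ZMod (4 * N))) =
      (Real.sin (2 * ((l + 1 : ℕ) : ℝ) * a) - Real.sin (2 * (l : ℝ) * a)) /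
        (2 * Real.sin a) := by
    intro l hl
    rw [sg_od (mem_range.1 hl), Oct.nd, eq_div_iff (by positivity), Real.sin_sub_sin]
    have e1 : (2 * ((l + 1 : ℕ) : ℝ) * a - 2 * (l : ℝ) * a) / 2 = a := by
      push_cast
      ring
    have e2 : (2 * ((l + 1 : ℕ) : ℝ) * a + 2 * (l : ℝ) * a) / 2 =
        s * (Real.pi * (2 * l + 1) / ((2 * N : ℕ) : ℝ)) := by
      rw [ha]
      push_cast
      field_simp
      try ring
    rw [e1, e2]
    ring
  rw [Finset.sum_congr rfl h1, ← Finset.sum_div,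
    Finset.sum_range_sub (fun l : ℕ => Real.sin (2 * (l : ℝ) * a))]
  have e3 : 2 * ((2 * N : ℕ) : ℝ) * a = ((2 * s : ℕ) : ℝ) * Real.pi := by
    rw [ha]
    push_cast
    field_simp
    try ring
  rw [e3, Real.sin_nat_mul_pi]
  simp

private theorem Kap_D0 : ∑ t with par N t = 1, Real.cos (0 * sg N t) = 2 * N := by
  rw [sum_od]
  simp

private theorem Kap_diff {t : ZMod (4 * N)} (ht : par N t = 1) (s : ℝ) :
    kap N t * Real.cos ((s + 1) * sg N t) = 2 * (kap N t * Real.cos (s * sg N t)) -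
      kap N t * Real.cos ((s - 1) * sg N t) - 1 / (N : ℝ) ^ 2 * Real.cos (s * sg N t) := by
  have hs := Kap_sin ht
  have hN : (0 : ℝ) < N := Kap_N
  have h1 : Real.cos (sg N t) = 1 - 2 * Real.sin (sg N t / 2) ^ 2 := by
    have h2 : Real.cos (2 * (sg N t / 2)) = 1 - 2 * Real.sin (sg N t / 2) ^ 2 := by
      rw [Real.cos_two_mul, Real.cos_sq']
      ring
    rwa [mul_div_cancel₀ _ (two_ne_zero)] at h2
  have h3 : kap N t * Real.sin (sg N t / 2) ^ 2 = 1 / (4 * (N : ℝ) ^ 2) := by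
    unfold kap
    field_simp
  rw [add_mul, sub_mul, one_mul, Real.cos_add, Real.cos_sub, h1]
  have h4 : 4 * (kap N t * Real.sin (sg N t / 2) ^ 2) * Real.cos (s * sg N t) =
      1 / (N : ℝ) ^ 2 * Real.cos (s * sg N t) := by
    rw [h3]
    field_simp
  linear_combination (-1 : ℝ) * h4

private theorem Kap_C (s : ℕ) :
    (s ≤ 2 * N → ∑ t with par N t = 1, kap N t * Real.cos (s * sg N t) =
      (∑ t with par N t = 1, kap N t * Real.cos (0 * sg N t)) - s / N) ∧
    (s + 1 ≤ 2 * N → ∑ t with par N t = 1, kap N t * Real.cos (((s + 1 : ℕ) : ℝ) * sg N t) =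
      (∑ t with par N t = 1, kap N t * Real.cos (0 * sg N t)) - ((s + 1 : ℕ) : ℝ) / N) := by
  have hN : (0 : ℝ) < N := Kap_N
  have key : ∀ s : ℝ, ∑ t with par N t = 1, kap N t * Real.cos ((s + 1) * sg N t) =
      2 * (∑ t with par N t = 1, kap N t * Real.cos (s * sg N t)) -
      (∑ t with par N t = 1, kap N t * Real.cos ((s - 1) * sg N t)) -
      1 / (N : ℝ) ^ 2 * ∑ t with par N t = 1, Real.cos (s * sg N t) := by
    intro s
    rw [Finset.mul_sum, Finset.mul_sum, ← Finset.sum_sub_distrib, ← Finset.sum_sub_distrib]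
    exact Finset.sum_congr rfl fun t ht => Kap_diff (Finset.mem_filter.1 ht).2 s
  induction s with
  | zero =>
    constructor
    · intro _
      simp
    · intro _
      have h1 := key 0
      rw [Kap_D0] at h1
      have h2 : ∑ t with par N t = 1, kap N t * Real.cos ((0 - 1) * sg N t) =
          ∑ t with par N t = 1, kap N t * Real.cos ((0 + 1) * sg N t) := by
        refine Finset.sum_congr rfl fun t _ => ?_
        rw [zero_sub, neg_mul, Real.cos_neg, zero_add]
      rw [h2] at h1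
      have h3 : 1 / (N : ℝ) ^ 2 * (2 * N) = 2 / N := by field_simp
      rw [h3] at h1
      have h4 : (((0 + 1 : ℕ)) : ℝ) = 0 + 1 := by simp
      rw [h4]
      have h5 : 2 / (N : ℝ) = 2 * ((0 + 1) / N) := by ring
      rw [h5] at h1
      linarith
  | succ s ih =>
    refine ⟨ih.2, fun hs => ?_⟩
    have h1 := key ((s + 1 : ℕ) : ℝ)
    rw [Kap_D (Nat.succ_pos s) (by omega), mul_zero, sub_zero] at h1
    have e1 : ((s + 1 : ℕ) : ℝ) + 1 = ((s + 1 + 1 : ℕ) : ℝ) := by push_cast; ring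
    have e2 : ((s + 1 : ℕ) : ℝ) - 1 = (s : ℝ) := by push_cast; ring
    rw [e1, e2, ih.1 (by omega), ih.2 (by omega)] at h1
    rw [h1]
    push_cast
    field_simp
    ring

private theorem Kap_CN : ∑ t with par N t = 1, kap N t * Real.cos ((N : ℝ) * sg N t) = 0 := by
  have hN : (0 : ℝ) < N := Kap_N
  refine Finset.sum_eq_zero fun t ht => ?_
  obtain ⟨q, hq⟩ := Kap_odd (Finset.mem_filter.1 ht).2
  have h1 : Real.cos ((N : ℝ) * sg N t) = 0 := by
    rw [Real.cos_eq_zero_iff]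
    refine ⟨q, ?_⟩
    unfold sg
    rw [hq]
    push_cast
    field_simp
  rw [h1, mul_zero]

theorem kap_cos {n : ℕ} (hn : n ≤ N) :
    ∑ t with par N t = 1, kap N t * Real.cos (2 * n * sg N t) = 1 - 2 * n / N := by
  have hN : (0 : ℝ) < N := Kap_N
  have h1 := (Kap_C (N := N) N).1 (by omega)
  rw [Kap_CN, div_self hN.ne'] at h1
  have h2 := (Kap_C (N := N) (2 * n)).1 (by omega)
  have h3 : ((2 * n : ℕ) : ℝ) = 2 * n := by push_cast; ring
  rw [h3] at h2
  rw [h2]
  linarith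

private theorem Kap_sin0 (n : ℕ) :
    ∑ t with par N t = 1, kap N t * Real.sin (2 * n * sg N t) = 0 := by
  have h1 := Kap_nsum (N := N) (fun t => kap N t * Real.sin (2 * n * sg N t))
  have h2 : ∑ t with par N t = 1, kap N (-t) * Real.sin (2 * n * sg N (-t)) =
      -∑ t with par N t = 1, kap N t * Real.sin (2 * n * sg N t) := by
    rw [← Finset.sum_neg_distrib]
    refine Finset.sum_congr rfl fun t ht => ?_
    have e1 : 2 * (n : ℝ) * (2 * Real.pi - sg N t) =
        ((2 * n : ℕ) : ℝ) * (2 * Real.pi) - 2 * n * sg N t := by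
      push_cast
      ring
    rw [kap_neg, Kap_sgneg (Kap_ne (Finset.mem_filter.1 ht).2), e1,
      Real.sin_nat_mul_two_pi_sub]
    ring
  rw [h2] at h1
  linarith

private theorem Kap_E {n : ℕ} (hn : n < 2 * N) :
    1 + ∑ t with par N t = 1, kap N t * Real.cos (2 * n * sg N t) = 2 * |1 - (n : ℝ) / N| := by
  have hN : (0 : ℝ) < N := Kap_N
  rcases le_total n N with h | h
  · have h1 : (n : ℝ) ≤ N := by exact_mod_cast h
    rw [kap_cos h, abs_of_nonneg (sub_nonneg.2 ((div_le_one hN).2 h1))]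
    ring
  · have h1 : (N : ℝ) ≤ n := by exact_mod_cast h
    have h2 : ∑ t with par N t = 1, kap N t * Real.cos (2 * n * sg N t) =
        ∑ t with par N t = 1, kap N t * Real.cos (2 * ((2 * N - n : ℕ) : ℝ) * sg N t) := by
      refine Finset.sum_congr rfl fun t _ => ?_
      have e1 : 2 * ((2 * N - n : ℕ) : ℝ) * sg N t =
          (t.val : ℝ) * (2 * Real.pi) - 2 * n * sg N t := by
        rw [Nat.cast_sub hn.le]
        unfold sg
        push_cast
        field_simp
        try ring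
      rw [e1, Real.cos_nat_mul_two_pi_sub]
    rw [h2, kap_cos (by omega), Nat.cast_sub hn.le,
      abs_of_nonpos (sub_nonpos.2 ((one_le_div hN).2 h1))]
    push_cast
    field_simp
    ring

private theorem Kap_shift (n : ℕ) (y t : ZMod (4 * N)) :
    Real.cos (n * sg N (y + 2 * t)) = Real.cos (n * sg N y + 2 * n * sg N t) := by
  have hN : (0 : ℝ) < N := Kap_N
  have h1 : (((y + 2 * t).val - y.val - 2 * t.val : ℤ) : ZMod (4 * N)) = 0 := by
    push_cast
    rw [ZMod.natCast_zmod_val, ZMod.natCast_zmod_val, ZMod.natCast_zmod_val]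
    ring
  rw [ZMod.intCast_zmod_eq_zero_iff_dvd] at h1
  obtain ⟨q, hq⟩ := h1
  have h2 : ((y + 2 * t).val : ℝ) = y.val + 2 * t.val + 4 * N * q := by
    have h3 : ((y + 2 * t).val : ℤ) = y.val + 2 * t.val + 4 * N * q := by
      push_cast at hq
      linarith
    exact_mod_cast h3
  have h4 : n * sg N (y + 2 * t) = (n * sg N y + 2 * n * sg N t) +
      ((n * q : ℤ) : ℝ) * (2 * Real.pi) := by
    unfold sg
    rw [h2]
    push_cast
    field_simp
    ring
  rw [h4, Real.cos_add_int_mul_two_pi]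

private theorem Kap_zero {y : ZMod (4 * N)} (hy : par N y = 0) :
    KK N 0 y = 1 / (2 * N) * ∑ n ∈ range (2 * N), Real.cos (n * sg N y) := by
  have hN : (0 : ℝ) < N := Kap_N
  have hN' : 0 < N := Nat.pos_of_ne_zero (NeZero.ne N)
  rw [Kap_par] at hy
  obtain ⟨m, hm⟩ := ZMod.natCast_eq_zero_iff_even.1 hy
  have h1 : ∀ n ∈ range (2 * N), Real.cos (n * sg N y) =
      Real.cos ((m : ℤ) * (Real.pi * n / N)) := by
    intro n _
    congr 1
    unfold sg
    rw [hm]
    push_cast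
    field_simp
    ring
  rw [Finset.sum_congr rfl h1]
  change (if y = 0 then (1 : ℝ) else 0) = _
  have hlt := ZMod.val_lt y
  by_cases h : y = 0
  · have hm0 : m = 0 := by
      rw [h, ZMod.val_zero] at hm
      omega
    rw [if_pos h, Oct.TrigAux.csum_dvd hN' (by rw [hm0]; exact dvd_zero _)]
    field_simp
  · rw [if_neg h, Oct.TrigAux.csum_ne hN', mul_zero]
    rintro ⟨q, hq⟩
    have h2 : 0 < y.val := Nat.pos_of_ne_zero fun h' => h ((ZMod.val_eq_zero y).1 h')
    have h3 : 0 < m := by omega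
    have h4 : m < 2 * N := by omega
    have h5 : (0 : ℤ) < q := by
      by_contra hc
      push Not at hc
      have h6 : (m : ℤ) ≤ 0 := by
        rw [hq]
        exact mul_nonpos_of_nonneg_of_nonpos (by positivity) hc
      omega
    have h6 : (2 * (N : ℤ)) ≤ m := by
      rw [hq]
      nlinarith
    omega

theorem KK_closed (j : ℕ) {y : ZMod (4 * N)} (hy : par N y = 0) :
    KK N j y = 1 / (2 * N) * ∑ n ∈ range (2 * N),
      |1 - (n : ℝ) / N| ^ j * Real.cos (n * sg N y) := by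
  have hN : (0 : ℝ) < N := Kap_N
  induction j generalizing y with
  | zero =>
    rw [Kap_zero hy]
    simp only [pow_zero, one_mul]
  | succ j ih =>
    have hpar : ∀ t : ZMod (4 * N), par N (y + 2 * t) = 0 := by
      intro t
      have h2 : (2 : ZMod 2) = 0 := rfl
      rw [map_add, hy, map_mul, map_ofNat, h2, zero_mul, add_zero]
    have h0 : ∑ t with par N t = 1, kap N t * KK N j (y + 2 * t) =
        ∑ t with par N t = 1, kap N t * (1 / (2 * N) * ∑ n ∈ range (2 * N),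
        |1 - (n : ℝ) / N| ^ j * Real.cos (n * sg N (y + 2 * t))) :=
      Finset.sum_congr rfl fun t _ => by rw [ih (hpar t)]
    rw [Kap_succ, ih hy, h0]
    have h1 : ∑ t with par N t = 1, kap N t * (1 / (2 * N) * ∑ n ∈ range (2 * N),
        |1 - (n : ℝ) / N| ^ j * Real.cos (n * sg N (y + 2 * t))) =
        1 / (2 * N) * ∑ n ∈ range (2 * N), |1 - (n : ℝ) / N| ^ j *
          (Real.cos (n * sg N y) * ∑ t with par N t = 1, kap N t *
            Real.cos (2 * n * sg N t)) := by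
      have h2 : ∀ n : ℕ, Real.cos (n * sg N y) * (∑ t with par N t = 1, kap N t *
            Real.cos (2 * n * sg N t)) =
          ∑ t with par N t = 1, kap N t * Real.cos (n * sg N (y + 2 * t)) := by
        intro n
        have h3 : ∑ t with par N t = 1, kap N t * Real.cos (n * sg N (y + 2 * t)) =
            Real.cos (n * sg N y) * (∑ t with par N t = 1, kap N t *
              Real.cos (2 * n * sg N t)) - Real.sin (n * sg N y) *
              (∑ t with par N t = 1, kap N t * Real.sin (2 * n * sg N t)) := by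
          rw [Finset.mul_sum, Finset.mul_sum, ← Finset.sum_sub_distrib]
          refine Finset.sum_congr rfl fun t _ => ?_
          rw [Kap_shift, Real.cos_add]
          ring
        rw [h3, Kap_sin0, mul_zero, sub_zero]
      simp only [h2, Finset.mul_sum]
      rw [Finset.sum_comm]
      refine Finset.sum_congr rfl fun t _ => Finset.sum_congr rfl fun n _ => ?_
      ring
    rw [h1, ← mul_add, ← Finset.sum_add_distrib, ← mul_assoc, mul_comm (1 / 2 : ℝ), mul_assoc,
      Finset.mul_sum]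
    congr 1
    refine Finset.sum_congr rfl fun n hn => ?_
    have h4 := Kap_E (mem_range.1 hn)
    have h5 : |1 - (n : ℝ) / N| ^ j * Real.cos (n * sg N y) +
        |1 - (n : ℝ) / N| ^ j * (Real.cos (n * sg N y) *
          ∑ t with par N t = 1, kap N t * Real.cos (2 * n * sg N t)) =
        |1 - (n : ℝ) / N| ^ j * Real.cos (n * sg N y) *
          (1 + ∑ t with par N t = 1, kap N t * Real.cos (2 * n * sg N t)) := by ring
    rw [h5, h4, pow_succ]
    ring

private theorem Kap_pow_le (d m : ℕ) :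
    ((d : ℝ) + 1) * (m : ℝ) ^ d ≤ ((m + 1 : ℕ) : ℝ) ^ (d + 1) - (m : ℝ) ^ (d + 1) ∧
    ((m + 1 : ℕ) : ℝ) ^ (d + 1) - (m : ℝ) ^ (d + 1) ≤
      ((d : ℝ) + 1) * ((m + 1 : ℕ) : ℝ) ^ d := by
  have h1 := geom_sum₂_mul ((m + 1 : ℕ) : ℝ) (m : ℝ) (d + 1)
  have h2 : ((m + 1 : ℕ) : ℝ) - m = 1 := by push_cast; ring
  rw [h2, mul_one] at h1
  have hm : (0 : ℝ) ≤ m := Nat.cast_nonneg m
  have hm1 : (m : ℝ) ≤ ((m + 1 : ℕ) : ℝ) := by push_cast; linarith
  have hc : ∀ c : ℝ, ∑ _i ∈ range (d + 1), c = ((d : ℝ) + 1) * c := by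
    intro c
    rw [Finset.sum_const, card_range, nsmul_eq_mul]
    push_cast
    ring
  rw [← h1]
  constructor
  · rw [← hc]
    refine Finset.sum_le_sum fun i hi => ?_
    have hi' := mem_range.1 hi
    have e1 : (m : ℝ) ^ d = (m : ℝ) ^ i * (m : ℝ) ^ (d + 1 - 1 - i) := by
      rw [← pow_add]
      congr 1
      omega
    rw [e1]
    exact mul_le_mul_of_nonneg_right (pow_le_pow_left₀ hm hm1 i) (pow_nonneg hm _)
  · rw [← hc]
    refine Finset.sum_le_sum fun i hi => ?_
    have hi' := mem_range.1 hi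
    have e1 : ((m + 1 : ℕ) : ℝ) ^ d =
        ((m + 1 : ℕ) : ℝ) ^ i * ((m + 1 : ℕ) : ℝ) ^ (d + 1 - 1 - i) := by
      rw [← pow_add]
      congr 1
      omega
    rw [e1]
    exact mul_le_mul_of_nonneg_left (pow_le_pow_left₀ hm hm1 _)
      (pow_nonneg (hm.trans hm1) _)

private theorem Kap_sums (d n : ℕ) :
    ((d : ℝ) + 1) * ∑ m ∈ range n, (m : ℝ) ^ d ≤ (n : ℝ) ^ (d + 1) ∧
    (n : ℝ) ^ (d + 1) ≤ ((d : ℝ) + 1) * ∑ m ∈ range n, ((m + 1 : ℕ) : ℝ) ^ d := by
  induction n with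
  | zero => simp
  | succ n ih =>
    have h1 := Kap_pow_le d n
    rw [Finset.sum_range_succ, Finset.sum_range_succ, mul_add, mul_add]
    constructor
    · linarith [ih.1, h1.1]
    · linarith [ih.2, h1.2]

private theorem Kap_diffsum (d n : ℕ) :
    (∑ m ∈ range n, ((m + 1 : ℕ) : ℝ) ^ d) - ∑ m ∈ range n, (m : ℝ) ^ d ≤ (n : ℝ) ^ d := by
  rw [← Finset.sum_sub_distrib, Finset.sum_range_sub (fun m : ℕ => (m : ℝ) ^ d)]
  have : (0 : ℝ) ≤ ((0 : ℕ) : ℝ) ^ d := by positivity
  linarith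

private theorem Kap_val (d : ℕ) : KK N d 0 = 1 / (2 * (N : ℝ) ^ (d + 1)) *
    ((∑ m ∈ range N, ((m + 1 : ℕ) : ℝ) ^ d) + ∑ m ∈ range N, (m : ℝ) ^ d) := by
  have hN : (0 : ℝ) < N := Kap_N
  have hs0 : sg N 0 = 0 := by simp [sg]
  rw [KK_closed d (map_zero _)]
  simp only [hs0, mul_zero, Real.cos_zero, mul_one]
  rw [two_mul N, Finset.sum_range_add, ← Finset.sum_range_reflect]
  have h1 : ∀ m ∈ range N, |1 - ((N - 1 - m : ℕ) : ℝ) / N| ^ d =
      ((m + 1 : ℕ) : ℝ) ^ d / (N : ℝ) ^ d := by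
    intro m hm
    have hm' := mem_range.1 hm
    have e1 : ((N - 1 - m : ℕ) : ℝ) = N - (m + 1) := by
      have : N - 1 - m + (m + 1) = N := by omega
      have h2 : ((N - 1 - m : ℕ) : ℝ) + ((m : ℝ) + 1) = N := by exact_mod_cast this
      linarith
    have e2 : 1 - ((N - 1 - m : ℕ) : ℝ) / N = ((m + 1 : ℕ) : ℝ) / N := by
      rw [e1]
      push_cast
      field_simp
      ring
    rw [e2, abs_of_nonneg (by positivity), div_pow]
  have h2 : ∀ m ∈ range N, |1 - ((N + m : ℕ) : ℝ) / N| ^ d = (m : ℝ) ^ d / (N : ℝ) ^ d := by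
    intro m _
    have e2 : 1 - ((N + m : ℕ) : ℝ) / N = -((m : ℝ) / N) := by
      push_cast
      field_simp
      ring
    rw [e2, abs_neg, abs_of_nonneg (by positivity), div_pow]
  rw [Finset.sum_congr rfl h1, Finset.sum_congr rfl h2, ← Finset.sum_div, ← Finset.sum_div,
    ← add_div, pow_succ]
  field_simp

theorem KK_lim (d : ℕ) : Tendsto (fun n : ℕ => KK (n + 1) d 0) atTop (𝓝 (1 / (d + 1))) := by
  have hb : ∀ n : ℕ, |KK (n + 1) d 0 - 1 / ((d : ℝ) + 1)| ≤ 1 / ((n : ℝ) + 1) := by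
    intro n
    have hd : (0 : ℝ) < (d : ℝ) + 1 := by positivity
    have hn : (0 : ℝ) < ((n + 1 : ℕ) : ℝ) := by positivity
    have h1 := Kap_sums d (n + 1)
    have h2 := Kap_diffsum d (n + 1)
    rw [Kap_val]
    set P := ∑ m ∈ range (n + 1), ((m + 1 : ℕ) : ℝ) ^ d with hP
    set Q := ∑ m ∈ range (n + 1), (m : ℝ) ^ d with hQ
    set M : ℝ := ((n + 1 : ℕ) : ℝ) with hM
    have h3 : Q ≤ M ^ (d + 1) / ((d : ℝ) + 1) := by
      rw [le_div_iff₀ hd, mul_comm]
      exact h1.1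
    have h4 : M ^ (d + 1) / ((d : ℝ) + 1) ≤ P := by
      rw [div_le_iff₀ hd, mul_comm]
      exact h1.2
    have h5 : 1 / (2 * M ^ (d + 1)) * (P + Q) - 1 / ((d : ℝ) + 1) =
        ((P + Q) / 2 - M ^ (d + 1) / ((d : ℝ) + 1)) / M ^ (d + 1) := by
      field_simp
    have h6 : (1 : ℝ) / ((n : ℝ) + 1) = M ^ d / M ^ (d + 1) := by
      rw [pow_succ, hM]
      push_cast
      field_simp
    have h7 : |(P + Q) / 2 - M ^ (d + 1) / ((d : ℝ) + 1)| ≤ M ^ d := by
      have h8 : (0 : ℝ) ≤ M ^ d := by positivity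
      rw [abs_le]
      constructor <;> linarith
    rw [h5, h6, abs_div, abs_of_pos (by positivity : (0 : ℝ) < M ^ (d + 1))]
    exact div_le_div_of_nonneg_right h7 (by positivity)
  rw [tendsto_iff_dist_tendsto_zero]
  refine squeeze_zero (fun n => dist_nonneg) (fun n => ?_) tendsto_one_div_add_atTop_nhds_zero_nat
  rw [Real.dist_eq]
  exact hb n

end Pool.Agent.MPbd65ca.Bp
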