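import Pool.Agent.Lib.MP_bd65ca_an_F.PFb

/-!
# Bipyramids: the periodization is a trigonometric polynomial of the right degree

PROOF. `per`: every term of `PF_expand` (or every `Dk`) has period `2 π`.
`line`: by `PF_expand` and `PF_coeff`, for `x' = Function.update x i t` and `s' = s + σ t`:
`PF x' s' = ∑_k c k e^{i (b_k + t (k i + σ k last))}` with a real `b_k` not depending on `t`, and `c k = 0`
unless `|k i| + |k last| ≤ 2 N - 1`, so only frequencies `j = k i + σ k last` with `|j| ≤ 2 N - 1` occur.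
`TP M f` means `f u * e^{i M u} = p.eval (e^{i u})` with a polynomial of degree `≤ 2 M`: take
`p = ∑_k C (c k e^{i b_k}) * X ^ (j + M).toNat`, `M = 2 N - 1`.
`PF_grid`: interchange the sums with the integral; for every coordinate
`∑_{t odd} Dk (2 N) (sg N t - y) = 2 N` and `∑_{par k = c} Dk (2 N) (sg N k - y) = 2 N`:
`∑_{par k = c} cos (j (sg N k - y)) = 0` for `0 < |j| < 2 N` (geometric sum: the nodes of one parity
class are `u_0 + π l / N`, `l < 2 N`), and `2 N` for `j = 0`.  The product over the coordinates: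
`Finset.prod_univ_sum` / `Fintype.piFinset` (the sum over `X` with all `X i` odd).  Value
`(2 N) ^ (d + 1) * ∫ F`.
-/

open MeasureTheory FourierTransform Pointwise Set Finset Filter Topology
open scoped RealInnerProductSpace

namespace Pool.Agent.MPbd65ca.Bp

variable {d N : ℕ} [NeZero N]

namespace PFcAux

theorem csum_phase {n : ℕ} (hn : 0 < n) {K : ℤ} (h : ¬ (2 * n : ℤ) ∣ K) (φ : ℝ) :
    ∑ i ∈ Finset.range (2 * n), Real.cos (K * (Real.pi * i / n) + φ) = 0 := by
  have hn' : (n : ℂ) ≠ 0 := by exact_mod_cast hn.ne'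
  have hpi : (Real.pi : ℂ) ≠ 0 := by exact_mod_cast Real.pi_ne_zero
  set ζ : ℂ := Complex.exp (K * Real.pi / n * Complex.I) with hζ
  have h1 : ζ ≠ 1 := by
    intro hc
    rw [hζ, Complex.exp_eq_one_iff] at hc
    obtain ⟨q, hq⟩ := hc
    apply h
    refine ⟨q, ?_⟩
    have h2 : (K : ℂ) = 2 * n * q := by
      have h3 : (K : ℂ) * Real.pi / n * Complex.I * (n / (Real.pi * Complex.I)) =
        q * (2 * Real.pi * Complex.I) * (n / (Real.pi * Complex.I)) := by rw [hq]
      have hI := Complex.I_ne_zero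
      field_simp at h3
      rw [h3]
      ring
    exact_mod_cast h2
  have h2 : ζ ^ (2 * n) = 1 := by
    rw [hζ, ← Complex.exp_nat_mul]
    have : ((2 * n : ℕ) : ℂ) * (K * Real.pi / n * Complex.I) = K * (2 * Real.pi * Complex.I) := by
      push_cast
      field_simp
    rw [this]
    exact Complex.exp_int_mul_two_pi_mul_I K
  have h3 : ∑ i ∈ Finset.range (2 * n), ζ ^ i = 0 := by
    have h4 := mul_geom_sum ζ (2 * n)
    rw [h2, sub_self] at h4
    exact (mul_eq_zero.1 h4).resolve_left (sub_ne_zero.2 h1)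
  have h4 : ∀ i ∈ Finset.range (2 * n), Real.cos (K * (Real.pi * i / n) + φ) =
      (ζ ^ i * Complex.exp (φ * Complex.I)).re := by
    intro i _
    rw [hζ, ← Complex.exp_nat_mul, ← Complex.exp_add]
    have : (i : ℂ) * (K * Real.pi / n * Complex.I) + φ * Complex.I =
        ((K * (Real.pi * i / n) + φ : ℝ) : ℂ) * Complex.I := by
      push_cast
      ring
    rw [this, Complex.exp_ofReal_mul_I_re]
  rw [Finset.sum_congr rfl h4, ← Complex.re_sum, ← Finset.sum_mul, h3, zero_mul, Complex.zero_re]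

theorem par_natCast (n : ℕ) : par N ((n : ℕ) : ZMod (4 * N)) = (n : ZMod 2) := map_natCast _ _

theorem sum_par (f : ZMod (4 * N) → ℝ) (c : ZMod 2) :
    ∑ k with par N k = c, f k =
      ∑ l ∈ Finset.range (2 * N), f ((2 * l + c.val : ℕ) : ZMod (4 * N)) := by
  have hN : 0 < N := Nat.pos_of_ne_zero (NeZero.ne N)
  have hc : c.val < 2 := ZMod.val_lt c
  have h2 : ((2 : ℕ) : ZMod 2) = 0 := by decide
  symm
  refine Finset.sum_nbij' (fun l => ((2 * l + c.val : ℕ) : ZMod (4 * N))) (fun k => k.val / 2)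
    ?_ ?_ ?_ ?_ ?_
  · intro l _
    simp only [Finset.mem_filter, Finset.mem_univ, true_and]
    rw [par_natCast, Nat.cast_add, Nat.cast_mul, h2, zero_mul, zero_add, ZMod.natCast_zmod_val]
  · intro k _
    rw [Finset.mem_range]
    have := ZMod.val_lt k
    omega
  · intro l hl
    rw [Finset.mem_range] at hl
    show ((((2 * l + c.val : ℕ) : ZMod (4 * N))).val) / 2 = l
    rw [ZMod.val_cast_of_lt (by omega)]
    omega
  · intro k hk
    simp only [Finset.mem_filter, Finset.mem_univ, true_and] at hk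
    have h3 : ((k.val : ℕ) : ZMod 2) = c := by
      rw [← hk, ← par_natCast (N := N), ZMod.natCast_zmod_val]
    have h4 : k.val % 2 = c.val := by
      rw [← h3, ZMod.val_natCast]
    show ((2 * (k.val / 2) + c.val : ℕ) : ZMod (4 * N)) = k
    rw [← h4, Nat.div_add_mod, ZMod.natCast_zmod_val]
  · intro l _
    rfl

theorem grid (c : ZMod 2) (y : ℝ) : ∑ k with par N k = c, Dk (2 * N) (sg N k - y) = 2 * N := by
  have hN : 0 < N := Nat.pos_of_ne_zero (NeZero.ne N)
  have hN' : (N : ℝ) ≠ 0 := by exact_mod_cast hN.ne'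
  have hc : c.val < 2 := ZMod.val_lt c
  rw [sum_par]
  unfold Dk
  rw [Finset.sum_comm]
  have hs : ∀ l ∈ Finset.range (2 * N), sg N ((2 * l + c.val : ℕ) : ZMod (4 * N)) =
      Real.pi * l / N + Real.pi * c.val / (2 * N) := by
    intro l hl
    rw [Finset.mem_range] at hl
    unfold sg
    rw [ZMod.val_cast_of_lt (by omega)]
    push_cast
    field_simp
  rw [Finset.sum_eq_single (0 : ℤ)]
  · simp
  · intro j hj hj0
    rw [Finset.mem_Ioo] at hj
    have h1 : ¬ (2 * N : ℤ) ∣ j := by
      intro hd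
      have := Int.eq_zero_of_abs_lt_dvd hd (by
        rw [abs_lt]
        push_cast at hj
        exact hj)
      exact hj0 this
    rw [← csum_phase hN h1 (j * (Real.pi * c.val / (2 * N) - y))]
    refine Finset.sum_congr rfl fun l hl => ?_
    rw [hs l hl]
    congr 1
    ring
  · intro h
    exact absurd (by rw [Finset.mem_Ioo]; push_cast; omega) h

theorem Dk_cont (m : ℕ) : Continuous (Dk m) := by
  unfold Dk
  fun_prop

theorem Dk_le (m : ℕ) (u : ℝ) : |Dk m u| ≤ ((Finset.Ioo (-(m : ℤ)) m).card : ℝ) := by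
  unfold Dk
  refine (Finset.abs_sum_le_sum_abs _ _).trans ?_
  refine (Finset.sum_le_sum fun j _ => Real.abs_cos_le_one _).trans ?_
  simp

theorem PF_int {F : E (d + 1) → ℝ} (hF : Integrable F) (x : Fin d → ℝ) (s : ℝ) :
    Integrable (fun w : E (d + 1) =>
      F w * ((∏ i, Dk (2 * N) (x i - 2 * Real.pi / (2 * N - 1) * w i.castSucc)) *
        Dk (2 * N) (s - 2 * Real.pi / (2 * N - 1) * w (Fin.last d)))) := by
  have hc := Dk_cont (2 * N)
  have hcont : Continuous (fun w : E (d + 1) =>
      ((∏ i, Dk (2 * N) (x i - 2 * Real.pi / (2 * N - 1) * w i.castSucc)) *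
        Dk (2 * N) (s - 2 * Real.pi / (2 * N - 1) * w (Fin.last d)))) := by
    refine Continuous.mul (continuous_finsetProd _ fun i _ => hc.comp (by fun_prop))
      (hc.comp (by fun_prop))
  set B : ℝ := ((Finset.Ioo (-((2 * N : ℕ) : ℤ)) ((2 * N : ℕ) : ℤ)).card : ℝ) with hB
  have hB0 : 0 ≤ B := by positivity
  have := hF.bdd_mul (c := B ^ d * B) hcont.aestronglyMeasurable (ae_of_all _ (fun w => by
    rw [Real.norm_eq_abs, abs_mul, Finset.abs_prod]
    refine mul_le_mul ?_ (Dk_le _ _) (abs_nonneg _) (by positivity)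
    refine (Finset.prod_le_prod (fun i _ => abs_nonneg _) (fun i _ => Dk_le _ _)).trans ?_
    simp [hB]))
  simpa [mul_comm] using this

theorem sum_pi (g : Fin d → ZMod (4 * N) → ℝ) (r : ℝ) :
    (∑ X : Fin d → ZMod (4 * N), if (∀ i, par N (X i) = 1) then (∏ i, g i (X i)) * r else 0) =
      (∏ i, ∑ t with par N t = 1, g i t) * r := by
  rw [Finset.prod_univ_sum, ← Finset.sum_filter, Finset.sum_mul]
  refine Finset.sum_congr ?_ fun _ _ => rfl
  ext X
  simp [Fintype.mem_piFinset]

end PFcAux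

open PFcAux

theorem tg_PF {F : E (d + 1) → ℝ} (hF : Integrable F) (h0 : ∀ w, 0 ≤ F w)
    (h : ∀ ξ ∉ bip d, 𝓕 (fun w => (F w : ℂ)) ξ = 0) : Tg d N (PF d N F) := by
  have hN : 0 < N := Nat.pos_of_ne_zero (NeZero.ne N)
  refine ⟨PF_nonneg hF h0 h, ?_, ?_⟩
  · intro x s
    unfold PF Dk
    refine integral_congr_ae (ae_of_all _ fun w => ?_)
    simp only
    congr 2
    refine Finset.sum_congr rfl fun j _ => ?_
    rw [← Real.cos_add_int_mul_two_pi
      ((j : ℝ) * (s - 2 * Real.pi / (2 * N - 1) * w (Fin.last d))) j]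
    congr 1
    ring
  · intro x s i σ hσ
    obtain ⟨τ, hτ, hτ1⟩ : ∃ τ : ℤ, (τ : ℝ) = σ ∧ (τ = 1 ∨ τ = -1) := by
      rcases hσ with h1 | h1
      · exact ⟨1, by simp [h1], Or.inl rfl⟩
      · exact ⟨-1, by simp [h1], Or.inr rfl⟩
    have hdeg : ∀ k : Fin (d + 1) → ℤ, |k i.castSucc| + |k (Fin.last d)| ≤ (2 * N : ℤ) - 1 →
        0 ≤ k i.castSucc + τ * k (Fin.last d) + ((2 * N - 1 : ℕ) : ℤ) ∧
        k i.castSucc + τ * k (Fin.last d) + ((2 * N - 1 : ℕ) : ℤ) ≤ 2 * ((2 * N - 1 : ℕ) : ℤ) := by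
      intro k hk
      have h1 := abs_le.1 (le_refl |k i.castSucc|)
      have h2 := abs_le.1 (le_refl |k (Fin.last d)|)
      rcases hτ1 with h3 | h3 <;> rw [h3] <;> constructor <;> omega
    refine ⟨∑ k ∈ Bx d N, if |k i.castSucc| + |k (Fin.last d)| ≤ (2 * N : ℤ) - 1 then
      Polynomial.C (𝓕 (fun w => (F w : ℂ)) (WithLp.toLp 2 fun j => (k j : ℝ) / (2 * N - 1)) *
        Complex.exp (Complex.I * ((∑ i' ∈ univ.erase i, (k i'.castSucc : ℝ) * x i' +
          k (Fin.last d) * s : ℝ) : ℂ))) *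
      Polynomial.X ^ (k i.castSucc + τ * k (Fin.last d) + ((2 * N - 1 : ℕ) : ℤ)).toNat else 0,
      ?_, ?_⟩
    · refine Polynomial.natDegree_sum_le_of_forall_le _ _ fun k _ => ?_
      split_ifs with hk
      · refine (Polynomial.natDegree_C_mul_X_pow_le _ _).trans ?_
        have := hdeg k hk
        omega
      · simp
    · intro u
      rw [PF_expand hF, Polynomial.eval_finsetSum, Finset.sum_mul]
      refine Finset.sum_congr rfl fun k _ => ?_
      split_ifs with hk
      · rw [Polynomial.eval_mul, Polynomial.eval_C, Polynomial.eval_pow, Polynomial.eval_X,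
          ← Complex.exp_nat_mul, mul_assoc, mul_assoc, ← Complex.exp_add, ← Complex.exp_add]
        congr 2
        have h1 : (((k i.castSucc + τ * k (Fin.last d) + ((2 * N - 1 : ℕ) : ℤ)).toNat : ℕ) : ℂ) =
            (k i.castSucc : ℂ) + τ * k (Fin.last d) + ((2 * N - 1 : ℕ) : ℂ) := by
          have h2 := Int.toNat_of_nonneg (hdeg k hk).1
          exact_mod_cast congrArg (fun z : ℤ => (z : ℂ)) h2
        have h3 : (∑ i' : Fin d, (k i'.castSucc : ℝ) * (Function.update x i u) i') =
            (∑ i' ∈ univ.erase i, (k i'.castSucc : ℝ) * x i') + k i.castSucc * u := by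
          rw [← Finset.sum_erase_add _ _ (Finset.mem_univ i), Function.update_self]
          congr 1
          refine Finset.sum_congr rfl fun i' hi' => ?_
          rw [Function.update_of_ne (Finset.ne_of_mem_erase hi')]
        rw [h1, h3, ← hτ]
        push_cast
        ring
      · rw [PF_coeff h k i (by omega)]
        simp

theorem PF_grid {F : E (d + 1) → ℝ} (hF : Integrable F) (c : ZMod 2) :
    gsum d N (PF d N F) c = (2 * N) ^ (d + 1) * ∫ w, F w := by
  unfold gsum
  have h1 : ∀ X : Fin d → ZMod (4 * N), (if (∀ i, par N (X i) = 1) then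
      ∑ k with par N k = c, PF d N F (fun i => sg N (X i)) (sg N k) else 0) =
      ∫ w, F w * (if (∀ i, par N (X i) = 1) then
        (∏ i, Dk (2 * N) (sg N (X i) - 2 * Real.pi / (2 * N - 1) * w i.castSucc)) *
        (∑ k with par N k = c, Dk (2 * N) (sg N k - 2 * Real.pi / (2 * N - 1) * w (Fin.last d)))
        else 0) := by
    intro X
    split_ifs with hX
    · unfold PF
      rw [← integral_finsetSum _ fun k _ => PF_int hF _ _]
      refine integral_congr_ae (ae_of_all _ fun w => ?_)
      simp only [Finset.mul_sum]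
    · simp
  rw [Finset.sum_congr rfl fun X _ => h1 X, ← integral_finsetSum]
  · rw [← integral_const_mul]
    refine integral_congr_ae (ae_of_all _ fun w => ?_)
    simp only
    rw [← Finset.mul_sum, sum_pi (fun i t => Dk (2 * N) (sg N t - 2 * Real.pi / (2 * N - 1) *
      w i.castSucc))]
    simp only [grid]
    rw [Finset.prod_const, Finset.card_univ, Fintype.card_fin]
    ring
  · intro X _
    split_ifs with hX
    · simp only [Finset.mul_sum]
      exact integrable_finsetSum _ fun k _ => PF_int hF _ _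
    · simp

end Pool.Agent.MPbd65ca.Bp
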