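import Pool.Agent.Lib.MP_bd65ca_an_F.PFa

/-!
# Bipyramids: Riemann sums

PROOF. By `PF_expand` `PF d N F 0 0 = ∑_{k ∈ Bx d N} φ (k / M)`, `φ = 𝓕 F`, `M = 2 N - 1`.  `φ` is
continuous (`VectorFourier.fourierIntegral_continuous`) and vanishes outside `bip d`, which is contained in
the cube `{|x j| ≤ 1}`, and all `k` with `k / M` in the cube are in `Bx d N`.  So
`∑_{k ∈ Bx} φ (k / M) / M ^ (d + 1) → ∫ φ` as `N → ∞` (`riemann` in Oct/Riem.lean is the case of
dimension 3, by `BoxIntegral.unitPartition.tendsto_tsum_div_pow_atTop_integral`; or directly: `φ` is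
uniformly continuous, the cubes `k / M + [0, 1/M) ^ (d + 1)` cover the cube), and
`∫ φ = F 0` by Fourier inversion (`F` continuous and integrable, `φ` integrable:
`MeasureTheory.Integrable.fourierInv_fourier_eq` / `Continuous.fourierInv_fourier_eq`; see
`psi_inv` in MP_bd65ca_an_Z/ExB.lean).  Finally `((2 N - 1) / (2 N)) ^ (d + 1) → 1`.
-/

open MeasureTheory FourierTransform Pointwise Set Finset Filter Topology
open scoped RealInnerProductSpace

namespace Pool.Agent.MPbd65ca.Bp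

variable {d : ℕ}

/-- The lattice point `v / N`. -/
private noncomputable def embR {m : ℕ} (N : ℝ) (v : Fin m → ℤ) : Fin m → ℝ :=
  fun i => N⁻¹ * (v i : ℝ)

private theorem embR_inj {m : ℕ} {N : ℝ} (hN : N ≠ 0) :
    Function.Injective (embR (m := m) N) := by
  intro v w h
  funext i
  have := congrFun h i
  simp only [embR] at this
  have h2 := mul_left_cancel₀ (inv_ne_zero hN) this
  exact_mod_cast h2

private theorem range_embR {m N : ℕ} (hN : N ≠ 0) : Set.range (embR (m := m) (N : ℝ)) =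
    (N : ℝ)⁻¹ • ((Submodule.span ℤ (Set.range (Pi.basisFun ℝ (Fin m))) :
      Submodule ℤ (Fin m → ℝ)) : Set (Fin m → ℝ)) := by
  have : NeZero N := ⟨hN⟩
  ext v
  rw [← Submodule.coe_pointwise_smul, SetLike.mem_coe,
    BoxIntegral.unitPartition.mem_smul_span_iff]
  constructor
  · rintro ⟨w, rfl⟩ i
    refine ⟨w i, ?_⟩
    simp only [embR, eq_intCast]
    rw [mul_inv_cancel_left₀ (Nat.cast_ne_zero.mpr hN)]
  · intro h
    choose w hw using h
    refine ⟨w, ?_⟩
    funext i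
    simp only [embR]
    have := hw i
    simp only [eq_intCast] at this
    rw [this, inv_mul_cancel_left₀ (Nat.cast_ne_zero.mpr hN)]

private theorem riemR {d : ℕ} {f : E (d + 1) → ℝ} (hf : Continuous f)
    (hsupp : ∀ ξ : E (d + 1), (∃ i, 1 < |ξ i|) → f ξ = 0) :
    Tendsto (fun n : ℕ => (∑ k ∈ Bx d (n + 1),
      f (WithLp.toLp 2 fun j => (k j : ℝ) / (2 * ((n + 1 : ℕ) : ℝ) - 1))) /
        (2 * ((n + 1 : ℕ) : ℝ) - 1) ^ (d + 1)) atTop (𝓝 (∫ ξ, f ξ)) := by
  obtain ⟨F, hF⟩ : ∃ F : (Fin (d + 1) → ℝ) → ℝ, ∀ x, F x = f (WithLp.toLp 2 x) :=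
    ⟨fun x => f (WithLp.toLp 2 x), fun _ => rfl⟩
  have hFc : Continuous F := by
    have h : F = f ∘ fun x => WithLp.toLp 2 x := funext hF
    rw [h]
    exact hf.comp (PiLp.continuous_toLp 2 _)
  obtain ⟨s, hs⟩ : ∃ s : Set (Fin (d + 1) → ℝ), s = Metric.closedBall 0 1 := ⟨_, rfl⟩
  have hF0 : ∀ x : Fin (d + 1) → ℝ, x ∉ s → F x = 0 := by
    intro x hx
    rw [hF]
    apply hsupp
    rw [hs, mem_closedBall_zero_iff, pi_norm_le_iff_of_nonneg zero_le_one] at hx
    push Not at hx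
    obtain ⟨i, hi⟩ := hx
    exact ⟨i, hi⟩
  have hint : ∫ x in s, F x = ∫ ξ, f ξ := by
    rw [setIntegral_eq_integral_of_forall_compl_eq_zero hF0]
    simp only [hF]
    exact (PiLp.volume_preserving_toLp (Fin (d + 1))).integral_comp
      (MeasurableEquiv.toLp 2 (Fin (d + 1) → ℝ)).measurableEmbedding f
  have hT := tendsto_tsum_div_pow_atTop_integral s F hFc (hs ▸ Metric.isBounded_closedBall)
    (hs ▸ Metric.isClosed_closedBall.measurableSet)
    (hs ▸ (convex_closedBall (0 : Fin (d + 1) → ℝ) 1).addHaar_frontier volume)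
  rw [hint] at hT
  have hφ : Filter.Tendsto (fun n : ℕ => 2 * (n + 1) - 1) Filter.atTop Filter.atTop :=
    Filter.tendsto_atTop_mono (f := fun n : ℕ => n) (fun n => by omega) Filter.tendsto_id
  have hT2 := hT.comp hφ
  refine hT2.congr fun n => ?_
  have hN : (2 * (n + 1) - 1 : ℕ) ≠ 0 := by omega
  have hcast : ((2 * (n + 1) - 1 : ℕ) : ℝ) = 2 * ((n + 1 : ℕ) : ℝ) - 1 := by
    rw [Nat.cast_sub (by omega)]
    push_cast
    ring
  simp only [Function.comp_apply, Fintype.card_fin]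
  rw [← hcast]
  congr 1
  have e1 : (∑' x : ↥(s ∩ ((2 * (n + 1) - 1 : ℕ) : ℝ)⁻¹ •
      ((Submodule.span ℤ (Set.range (Pi.basisFun ℝ (Fin (d + 1)))) :
      Submodule ℤ (Fin (d + 1) → ℝ)) : Set (Fin (d + 1) → ℝ))), F x) =
      ∑' v : Fin (d + 1) → ℤ, F (embR ((2 * (n + 1) - 1 : ℕ) : ℝ) v) := by
    rw [← tsum_range F (embR_inj (Nat.cast_ne_zero.mpr hN)), range_embR hN,
      _root_.tsum_subtype, _root_.tsum_subtype]
    refine tsum_congr fun x => ?_
    by_cases hx : x ∈ s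
    · by_cases hx2 : x ∈ ((2 * (n + 1) - 1 : ℕ) : ℝ)⁻¹ •
        ((Submodule.span ℤ (Set.range (Pi.basisFun ℝ (Fin (d + 1)))) :
        Submodule ℤ (Fin (d + 1) → ℝ)) : Set (Fin (d + 1) → ℝ))
      · rw [Set.indicator_of_mem (Set.mem_inter hx hx2), Set.indicator_of_mem hx2]
      · rw [Set.indicator_of_notMem (fun h => hx2 h.2), Set.indicator_of_notMem hx2]
    · rw [Set.indicator_of_notMem (fun h => hx h.1)]
      by_cases hx2 : x ∈ ((2 * (n + 1) - 1 : ℕ) : ℝ)⁻¹ •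
        ((Submodule.span ℤ (Set.range (Pi.basisFun ℝ (Fin (d + 1)))) :
        Submodule ℤ (Fin (d + 1) → ℝ)) : Set (Fin (d + 1) → ℝ))
      · rw [Set.indicator_of_mem hx2, hF0 x hx]
      · rw [Set.indicator_of_notMem hx2]
  refine e1.trans ?_
  have hM : (0 : ℝ) < ((2 * (n + 1) - 1 : ℕ) : ℝ) := by
    exact_mod_cast Nat.pos_of_ne_zero hN
  rw [tsum_eq_sum (s := Bx d (n + 1))]
  · refine Finset.sum_congr rfl fun k _ => ?_
    rw [hF]
    congr 2
    funext j
    rw [embR, hcast, div_eq_inv_mul]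
  · intro v hv
    have hv' : ∃ i, ¬ (-((2 * (n + 1) : ℕ) : ℤ) < v i ∧ v i < ((2 * (n + 1) : ℕ) : ℤ)) := by
      by_contra hcon
      push Not at hcon
      refine hv ?_
      rw [Bx, Fintype.mem_piFinset]
      intro i
      rw [Finset.mem_Ioo]
      exact hcon i
    obtain ⟨i, hi⟩ := hv'
    apply hF0
    rw [hs, mem_closedBall_zero_iff, pi_norm_le_iff_of_nonneg zero_le_one]
    push Not
    refine ⟨i, ?_⟩
    rw [embR, Real.norm_eq_abs, abs_mul, abs_inv, abs_of_pos hM]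
    have h1 : ((2 * (n + 1) : ℕ) : ℤ) ≤ |v i| := by
      by_contra h
      push Not at h
      exact hi (abs_lt.1 h)
    have h2 : ((2 * (n + 1) : ℕ) : ℝ) ≤ |(v i : ℝ)| := by exact_mod_cast h1
    rw [lt_inv_mul_iff₀ hM, mul_one]
    refine lt_of_lt_of_le ?_ h2
    exact_mod_cast (by omega : 2 * (n + 1) - 1 < 2 * (n + 1))

theorem PF_lim {F : E (d + 1) → ℝ} (hc : Continuous F) (hF : Integrable F)
    (h : ∀ ξ ∉ bip d, 𝓕 (fun w => (F w : ℂ)) ξ = 0) :
    Tendsto (fun n : ℕ => PF d (n + 1) F 0 0 / (2 * ((n + 1 : ℕ) : ℝ)) ^ (d + 1)) atTop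
      (𝓝 (F 0)) := by
  obtain ⟨φ, hφ⟩ : ∃ φ : E (d + 1) → ℂ, φ = 𝓕 (fun w => (F w : ℂ)) := ⟨_, rfl⟩
  have hFc : Continuous fun w : E (d + 1) => (F w : ℂ) := Complex.continuous_ofReal.comp hc
  have hFi : Integrable fun w : E (d + 1) => (F w : ℂ) := hF.ofReal
  have hφc : Continuous φ := by
    rw [hφ]
    exact VectorFourier.fourierIntegral_continuous Real.continuous_fourierChar
      (by exact continuous_inner) hFi
  have h0 : ∀ ξ : E (d + 1), (∃ i, 1 < |ξ i|) → φ ξ = 0 := by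
    rintro ξ ⟨i, hi⟩
    rw [hφ]
    refine h ξ fun hb => ?_
    obtain ⟨h1, h2⟩ := hb
    rcases Fin.eq_castSucc_or_eq_last i with ⟨j, rfl⟩ | rfl
    · have h3 := h2 j
      have h4 := abs_nonneg (ξ (Fin.last d))
      linarith
    · linarith
  have hφi : Integrable φ := by
    refine hφc.integrable_of_hasCompactSupport
      (HasCompactSupport.intro (K := (WithLp.toLp 2) '' (Metric.closedBall
        (0 : Fin (d + 1) → ℝ) 1)) ?_ ?_)
    · exact (isCompact_closedBall _ _).image (PiLp.continuous_toLp 2 _)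
    · intro ξ hξ
      apply h0
      by_contra hcon
      push Not at hcon
      refine hξ ⟨WithLp.ofLp ξ, ?_, rfl⟩
      rw [mem_closedBall_zero_iff, pi_norm_le_iff_of_nonneg zero_le_one]
      exact hcon
  have hinv : ∫ ξ, φ ξ = (F 0 : ℂ) := by
    have h1 := congrFun (hFc.fourierInv_fourier_eq hFi (by rw [← hφ]; exact hφi)) 0
    rw [← hφ, Real.fourierInv_eq] at h1
    rw [← h1]
    refine integral_congr_ae (Filter.Eventually.of_forall fun ξ => ?_)
    simp
  have hre : ∫ ξ, (φ ξ).re = F 0 := by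
    have h1 : ∫ ξ, (φ ξ).re = (∫ ξ, φ ξ).re := integral_re hφi
    rw [h1, hinv, Complex.ofReal_re]
  have hR := riemR (f := fun ξ => (φ ξ).re) (Complex.continuous_re.comp hφc)
    fun ξ hξ => by rw [h0 ξ hξ, Complex.zero_re]
  rw [hre] at hR
  have hPF : ∀ n : ℕ, PF d (n + 1) F 0 0 = ∑ k ∈ Bx d (n + 1),
      (φ (WithLp.toLp 2 fun j => (k j : ℝ) / (2 * ((n + 1 : ℕ) : ℝ) - 1))).re := by
    intro n
    have h1 := PF_expand (d := d) (N := n + 1) hF 0 0
    have h2 := congrArg Complex.re h1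
    rw [Complex.ofReal_re, Complex.re_sum] at h2
    rw [h2]
    refine Finset.sum_congr rfl fun k _ => ?_
    rw [← hφ]
    have h3 : Complex.exp (Complex.I * ((∑ i : Fin d, (k i.castSucc : ℝ) *
        (0 : Fin d → ℝ) i + k (Fin.last d) * 0 : ℝ) : ℂ)) = 1 := by
      simp
    rw [h3, mul_one]
  have hq : Tendsto (fun n : ℕ => ((2 * ((n + 1 : ℕ) : ℝ) - 1) / (2 * ((n + 1 : ℕ) : ℝ))) ^
      (d + 1)) atTop (𝓝 1) := by
    have h1 : Tendsto (fun n : ℕ => 1 - 1 / (2 * ((n + 1 : ℕ) : ℝ))) atTop (𝓝 (1 - 0)) := by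
      refine tendsto_const_nhds.sub ?_
      have h2 : Tendsto (fun n : ℕ => (1 / 2 : ℝ) * (1 / ((n : ℝ) + 1))) atTop
          (𝓝 ((1 / 2) * 0)) := tendsto_const_nhds.mul tendsto_one_div_add_atTop_nhds_zero_nat
      rw [mul_zero] at h2
      refine h2.congr fun n => ?_
      push_cast
      field_simp
    rw [sub_zero] at h1
    have h2 := h1.pow (d + 1)
    rw [one_pow] at h2
    refine h2.congr fun n => ?_
    congr 1
    have h3 : (2 * ((n + 1 : ℕ) : ℝ)) ≠ 0 := by positivity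
    rw [sub_div, div_self h3]
  have hfin := hR.mul hq
  rw [mul_one] at hfin
  refine hfin.congr fun n => ?_
  rw [hPF n, div_pow]
  have h3 : (2 * ((n + 1 : ℕ) : ℝ) - 1) ^ (d + 1) ≠ 0 := by
    refine pow_ne_zero _ (ne_of_gt ?_)
    push_cast
    have : (0 : ℝ) ≤ (n : ℝ) := Nat.cast_nonneg n
    linarith
  rw [div_mul_div_comm, mul_comm ((2 * ((n + 1 : ℕ) : ℝ) - 1) ^ (d + 1)), mul_div_mul_right _ _ h3]

end Pool.Agent.MPbd65ca.Bp
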