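import Pool.Agent.Lib.MP_bd65ca_an_F.Defs

/-!
# Bipyramids: the volume

PROOF. `vol_bip`: `volume.real (bip d) = ∫_{-1}^{1} (2 (1 - |τ|)) ^ d dτ = 2 ^ (d + 1) / (d + 1)`:
transfer to
`Fin (d + 1) → ℝ` (`EuclideanSpace.volume_preserving_measurableEquiv`), split off the last
coordinate
(`MeasureTheory.volume_preserving_piFinSuccAbove` at `Fin.last d`), `Measure.prod_apply`; the
section at
`τ`, `|τ| ≤ 1`, is the cube `Set.pi univ (fun _ => Icc (-(1 - |τ|)) (1 - |τ|))`
(`Real.volume_pi...`,
`Real.volume_Icc_pi`), and the integral is elementary.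
`isBody_bip`: closed, bounded, convex (`|·|` is convex), symmetric, `0` is an interior point
(`ball 0 (1/2)`, `|x j| ≤ ‖x‖`).
-/

open MeasureTheory FourierTransform Pointwise Set Finset Filter Topology
open scoped RealInnerProductSpace

namespace Pool.Agent.MPbd65ca.Bp

private theorem abs_comb {a b x y : ℝ} (ha : 0 ≤ a) (hb : 0 ≤ b) :
    |a * x + b * y| ≤ a * |x| + b * |y| := by
  refine (abs_add_le _ _).trans (le_of_eq ?_)
  rw [abs_mul, abs_mul, abs_of_nonneg ha, abs_of_nonneg hb]

private theorem isClosed_bip (d : ℕ) : IsClosed (bip d) := by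
  have h : bip d = {x : E (d + 1) | |x (Fin.last d)| ≤ 1} ∩
      ⋂ i : Fin d, {x : E (d + 1) | |x i.castSucc| + |x (Fin.last d)| ≤ 1} := by
    ext x
    simp [bip]
  rw [h]
  refine IsClosed.inter (isClosed_le (by fun_prop) (by fun_prop)) ?_
  exact isClosed_iInter fun i => isClosed_le (by fun_prop) (by fun_prop)

private theorem abs_le_one_of_mem {d : ℕ} {x : E (d + 1)} (h : x ∈ bip d) (j : Fin (d + 1)) :
    |x j| ≤ 1 := by
  refine Fin.lastCases h.1 (fun i => ?_) j
  have h1 := h.2 i
  have h2 := abs_nonneg (x (Fin.last d))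
  linarith

theorem isBody_bip (d : ℕ) : IsBody (bip d) := by
  refine ⟨?_, ?_, ⟨0, ?_⟩, fun x hx => ?_⟩
  · refine (isCompact_closedBall (0 : E (d + 1)) (Real.sqrt (d + 1))).of_isClosed_subset
      (isClosed_bip d) fun x hx => ?_
    rw [mem_closedBall_zero_iff, EuclideanSpace.norm_eq]
    refine Real.sqrt_le_sqrt ?_
    have h : ∀ i ∈ (Finset.univ : Finset (Fin (d + 1))), ‖x i‖ ^ 2 ≤ 1 := fun i _ =>
      pow_le_one₀ (norm_nonneg _) (abs_le_one_of_mem hx i)
    refine (Finset.sum_le_sum h).trans (le_of_eq ?_)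
    simp
  · intro x hx y hy a b ha hb hab
    have e : ∀ i, (a • x + b • y) i = a * x i + b * y i := fun i => by simp
    refine ⟨?_, fun i => ?_⟩
    · rw [e]
      have h1 := abs_comb (x := x (Fin.last d)) (y := y (Fin.last d)) ha hb
      have h2 := mul_le_mul_of_nonneg_left hx.1 ha
      have h3 := mul_le_mul_of_nonneg_left hy.1 hb
      linarith
    · rw [e, e]
      have h1 := abs_comb (x := x (Fin.last d)) (y := y (Fin.last d)) ha hb
      have h1' := abs_comb (x := x i.castSucc) (y := y i.castSucc) ha hb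
      have h2 := mul_le_mul_of_nonneg_left (hx.2 i) ha
      have h3 := mul_le_mul_of_nonneg_left (hy.2 i) hb
      linarith
  · rw [mem_interior]
    refine ⟨Metric.ball 0 (1 / 2), fun x hx => ?_, Metric.isOpen_ball, by simp⟩
    rw [mem_ball_zero_iff] at hx
    have h : ∀ i, |x i| ≤ 1 / 2 := fun i => (PiLp.norm_apply_le x i).trans hx.le
    refine ⟨?_, fun i => ?_⟩
    · have := h (Fin.last d)
      linarith
    · have := h (Fin.last d)
      have := h i.castSucc
      linarith
  · refine ⟨?_, fun i => ?_⟩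
    · simpa using hx.1
    · simpa using hx.2 i

private def SS (d : ℕ) : Set (ℝ × (Fin d → ℝ)) := {p | |p.1| ≤ 1 ∧ ∀ i, |p.2 i| + |p.1| ≤ 1}

private theorem closed_SS (d : ℕ) : IsClosed (SS d) := by
  have h : SS d = {p : ℝ × (Fin d → ℝ) | |p.1| ≤ 1} ∩
      ⋂ i : Fin d, {p : ℝ × (Fin d → ℝ) | |p.2 i| + |p.1| ≤ 1} := by
    ext x
    simp [SS]
  rw [h]
  refine IsClosed.inter (isClosed_le (by fun_prop) (by fun_prop)) ?_
  exact isClosed_iInter fun i => isClosed_le (by fun_prop) (by fun_prop)

private theorem int_left (d : ℕ) : ∫ τ in (-1 : ℝ)..0, (2 * (1 - |τ|)) ^ d = 2 ^ d / (d + 1) := by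
  have h : ∫ τ in (-1 : ℝ)..0, (2 * (1 - |τ|)) ^ d = ∫ τ in (-1 : ℝ)..0, (2 * (τ + 1)) ^ d := by
    refine intervalIntegral.integral_congr fun τ hτ => ?_
    rw [Set.uIcc_of_le (by norm_num)] at hτ
    rw [abs_of_nonpos hτ.2, sub_neg_eq_add, add_comm]
  rw [h, intervalIntegral.integral_comp_add_right (fun x => (2 * x) ^ d)]
  simp only [mul_pow, intervalIntegral.integral_const_mul, integral_pow]
  norm_num
  ring

private theorem int_right (d : ℕ) : ∫ τ in (0 : ℝ)..1, (2 * (1 - |τ|)) ^ d = 2 ^ d / (d + 1) := by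
  have h : ∫ τ in (0 : ℝ)..1, (2 * (1 - |τ|)) ^ d = ∫ τ in (0 : ℝ)..1, (2 * (1 - τ)) ^ d := by
    refine intervalIntegral.integral_congr fun τ hτ => ?_
    rw [Set.uIcc_of_le (by norm_num)] at hτ
    rw [abs_of_nonneg hτ.1]
  rw [h, intervalIntegral.integral_comp_sub_left (fun x => (2 * x) ^ d)]
  simp only [mul_pow, intervalIntegral.integral_const_mul, integral_pow]
  norm_num
  ring

private theorem vol_SS (d : ℕ) : volume (SS d) = ENNReal.ofReal (2 ^ (d + 1) / (d + 1)) := by
  have hm : MeasurableSet (SS d) := (closed_SS d).measurableSet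
  rw [Measure.volume_eq_prod, Measure.prod_apply hm]
  have hsec : ∀ τ : ℝ, volume (Prod.mk τ ⁻¹' SS d) =
      (Icc (-1 : ℝ) 1).indicator (fun τ => ENNReal.ofReal ((2 * (1 - |τ|)) ^ d)) τ := by
    intro τ
    by_cases hτ : τ ∈ Icc (-1 : ℝ) 1
    · have hτ' : |τ| ≤ 1 := abs_le.2 hτ
      rw [indicator_of_mem hτ]
      have e : Prod.mk τ ⁻¹' SS d =
          Set.pi univ (fun _ : Fin d => Icc (-(1 - |τ|)) (1 - |τ|)) := by
        ext y
        simp only [SS, Set.mem_preimage, Set.mem_ofPred_eq, Set.mem_pi, Set.mem_univ, true_implies,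
          Set.mem_Icc, hτ', true_and]
        refine forall_congr' fun i => ?_
        rw [← abs_le]
        constructor
        · intro h
          linarith
        · intro h
          linarith
      rw [e, volume_pi_pi]
      simp only [Real.volume_Icc, prod_const, Finset.card_univ, Fintype.card_fin]
      rw [ENNReal.ofReal_pow (by linarith)]
      congr 2
      ring
    · rw [indicator_of_notMem hτ]
      have e : Prod.mk τ ⁻¹' SS d = ∅ := by
        ext y
        simp only [SS, Set.mem_preimage, Set.mem_ofPred_eq, Set.mem_empty_iff_false, iff_false]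
        intro h
        exact hτ (abs_le.1 h.1)
      rw [e, measure_empty]
  rw [lintegral_congr hsec, lintegral_indicator measurableSet_Icc]
  have hc : Continuous fun τ : ℝ => (2 * (1 - |τ|)) ^ d := by fun_prop
  rw [← ofReal_integral_eq_lintegral_ofReal]
  · congr 1
    rw [integral_Icc_eq_integral_Ioc, ← intervalIntegral.integral_of_le (by norm_num),
      ← intervalIntegral.integral_add_adjacent_intervals (b := 0)
        (hc.intervalIntegrable _ _) (hc.intervalIntegrable _ _), int_left, int_right]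
    rw [pow_succ]
    ring
  · exact hc.continuousOn.integrableOn_compact isCompact_Icc
  · refine (ae_restrict_iff' measurableSet_Icc).2 (Eventually.of_forall fun τ hτ => ?_)
    have hτ' : |τ| ≤ 1 := abs_le.2 hτ
    exact pow_nonneg (by linarith) _

theorem vol_bip (d : ℕ) : volume.real (bip d) = 2 ^ (d + 1) / (d + 1) := by
  have h1 : bip d = (MeasurableEquiv.toLp 2 (Fin (d + 1) → ℝ)).symm ⁻¹'
      ((MeasurableEquiv.piFinSuccAbove (fun _ => ℝ) (Fin.last d)) ⁻¹' SS d) := by
    ext x
    simp only [bip, SS, Set.mem_ofPred_eq, Set.mem_preimage, MeasurableEquiv.piFinSuccAbove_apply,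
      Fin.insertNthEquiv_symm_apply, Fin.removeNth_last]
    rfl
  have hm : MeasurableSet (SS d) := (closed_SS d).measurableSet
  rw [measureReal_def, h1,
    (EuclideanSpace.volume_preserving_symm_measurableEquiv_toLp
      (Fin (d + 1))).measure_preimage_equiv,
    (volume_preserving_piFinSuccAbove (fun _ : Fin (d + 1) => ℝ)
      (Fin.last d)).measure_preimage hm.nullMeasurableSet, vol_SS, ENNReal.toReal_ofReal]
  positivity

end Pool.Agent.MPbd65ca.Bp
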