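import Pool.Agent.Lib.MP_bd65ca_an_F.Ind
import Pool.Agent.Lib.MP_bd65ca_an_F.PFc
import Pool.Agent.Lib.MP_bd65ca_an_F.Riem
import Pool.Agent.Lib.MP_bd65ca_an_F.Vol

/-!
# Bipyramids: the standard bipyramid

PROOF. `main_bip`: for `N = n + 1`, `disc` with `p = PF d N F` (`tg_PF`) and `PF_grid` give
`PF d N F 0 0 ≤ KK N d 0 * ((2 N) ^ (d + 1) * ∫ F)`; divide by `(2 N) ^ (d + 1)` and let `n → ∞`
(`PF_lim`, `KK_lim`).
`turan_bip`: `≤`: `cls_trivial`, `turan_le_integral`.  `≥`: `2 ^ (d + 1) / volume.real = d + 1` by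
`vol_bip`; for `F ∈ cls (bip d)`: `1 ≤ F 0 ≤ (1 / (d + 1)) ∫ F`; the transform vanishes outside
`bip d` since `tsupport ⊆ bip d`.
-/

open MeasureTheory FourierTransform Pointwise Set Finset Filter Topology
open scoped RealInnerProductSpace

namespace Pool.Agent.MPbd65ca.Bp

theorem main_bip {d : ℕ} {F : E (d + 1) → ℝ} (hc : Continuous F) (hF : Integrable F)
    (h0 : ∀ w, 0 ≤ F w) (h : ∀ ξ ∉ bip d, 𝓕 (fun w => (F w : ℂ)) ξ = 0) :
    F 0 ≤ 1 / (d + 1) * ∫ w, F w := by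
  refine le_of_tendsto_of_tendsto' (PF_lim hc hF h) ((KK_lim d).mul_const (∫ w, F w)) fun n => ?_
  have h1 := disc (tg_PF (N := n + 1) hF h0 h)
  rw [PF_grid hF] at h1
  have h2 : (0 : ℝ) < (2 * ((n + 1 : ℕ) : ℝ)) ^ (d + 1) := by positivity
  rw [div_le_iff₀ h2]
  calc PF d (n + 1) F 0 0 ≤ KK (n + 1) d 0 * ((2 * ((n + 1 : ℕ) : ℝ)) ^ (d + 1) * ∫ w, F w) := h1
    _ = KK (n + 1) d 0 * (∫ w, F w) * (2 * ((n + 1 : ℕ) : ℝ)) ^ (d + 1) := by ring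

theorem turan_bip (d : ℕ) : turan (bip d) = 2 ^ (d + 1) / volume.real (bip d) := by
  have hB : IsBody (bip d) := isBody_bip d
  refine le_antisymm ?_ ?_
  · obtain ⟨F, hF, hFi⟩ := cls_trivial hB
    exact (turan_le_integral hF).trans hFi
  · obtain ⟨F₀, hF₀, -⟩ := cls_trivial hB
    refine le_csInf ⟨_, ⟨F₀, hF₀, rfl⟩⟩ ?_
    rintro _ ⟨F, ⟨hc, hi, h0, h1, hs⟩, rfl⟩
    simp only
    have hf0 : ∀ ξ ∉ bip d, 𝓕 (fun w => (F w : ℂ)) ξ = 0 := fun ξ hξ => by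
      by_contra hne
      exact hξ (hs (subset_tsupport _ hne))
    have h2 := h1.trans (main_bip hc hi h0 hf0)
    have hd : (0 : ℝ) < (d : ℝ) + 1 := by positivity
    have h3 : (2 : ℝ) ^ (d + 1) ≠ 0 := by positivity
    rw [vol_bip, div_div_eq_mul_div, mul_div_assoc, mul_comm, div_mul_cancel₀ _ h3]
    rw [one_div, ← div_eq_inv_mul, one_le_div hd] at h2
    exact h2

end Pool.Agent.MPbd65ca.Bp
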