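import Pool.Agent.Lib.MP_bd65ca_an_F.Defs

/-!
# Bipyramids: expansion of the periodization

PROOF. `Dk_exp`: `∑_{j} cos (j u) = ∑_j e^{i j u}` over the symmetric index set (the sine part is
odd).
`PF_expand`: `∏_i Dk (u_i) = ∏_i ∑_j e^{i j u_i} = ∑_{k ∈ Bx} e^{i k·u}` (`Finset.prod_univ_sum`,
`Fin.prod_univ_castSucc`), interchange the finite sum and the integral (each term integrable: `F`
integrable times a bounded continuous function), and
`∫ F w e^{i k·(θ - (2π/M) w)} = e^{i k·θ} ∫ F w e^{-2 π i ⟪w, M⁻¹ k⟫} = e^{i k·θ} 𝓕 F (M⁻¹ k)`,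
`M = 2 N - 1` (`Real.fourier_eq'`).
`PF_coeff`: if `k ∈ Bx` and `2 N - 1 < |k i| + |k last|` for some `i` then `M⁻¹ k ∉ bip d`.
-/

open MeasureTheory FourierTransform Pointwise Set Finset Filter Topology
open scoped RealInnerProductSpace

namespace Pool.Agent.MPbd65ca.Bp

variable {d N : ℕ} [NeZero N]

theorem Dk_exp (m : ℕ) (u : ℝ) :
    (Dk m u : ℂ) = ∑ j ∈ Ioo (-(m : ℤ)) m, Complex.exp (Complex.I * (j * u)) := by
  have h1 : ∀ j : ℤ, Complex.exp (Complex.I * (j * u)) =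
      ((Real.cos (j * u) : ℝ) : ℂ) + ((Real.sin (j * u) : ℝ) : ℂ) * Complex.I := by
    intro j
    rw [mul_comm, Complex.exp_mul_I]
    push_cast
    ring
  have h2 : ∑ j ∈ Ioo (-(m : ℤ)) m, Real.sin (j * u) = 0 := by
    have h3 : ∑ j ∈ Ioo (-(m : ℤ)) m, Real.sin (j * u) =
        ∑ j ∈ Ioo (-(m : ℤ)) m, Real.sin (((-j : ℤ) : ℝ) * u) := by
      refine Finset.sum_nbij' (fun j => -j) (fun j => -j) ?_ ?_ ?_ ?_ ?_
      · intro j hj
        simp only [Finset.mem_Ioo] at hj ⊢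
        constructor <;> linarith [hj.1, hj.2]
      · intro j hj
        simp only [Finset.mem_Ioo] at hj ⊢
        constructor <;> linarith [hj.1, hj.2]
      · intro j _
        simp
      · intro j _
        simp
      · intro j _
        simp
    have h4 : ∑ j ∈ Ioo (-(m : ℤ)) m, Real.sin (((-j : ℤ) : ℝ) * u) =
        -∑ j ∈ Ioo (-(m : ℤ)) m, Real.sin (j * u) := by
      rw [← Finset.sum_neg_distrib]
      refine Finset.sum_congr rfl fun j _ => ?_
      push_cast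
      rw [neg_mul, Real.sin_neg]
    linarith
  rw [Finset.sum_congr rfl fun j _ => h1 j, Finset.sum_add_distrib, ← Finset.sum_mul,
    ← Complex.ofReal_sum, ← Complex.ofReal_sum, h2]
  simp [Dk]

omit [NeZero N] in
private lemma prod_exp (x : Fin d → ℝ) (s c : ℝ) (w : E (d + 1)) :
    (((∏ i, Dk (2 * N) (x i - c * w i.castSucc)) * Dk (2 * N) (s - c * w (Fin.last d)) : ℝ) : ℂ) =
      ∑ k ∈ Bx d N,
        Complex.exp (Complex.I * ((∑ i : Fin d, (k i.castSucc : ℝ) * x i +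
          k (Fin.last d) * s : ℝ) : ℂ)) *
        Complex.exp (((-(c * ∑ j, (k j : ℝ) * w j) : ℝ) : ℂ) * Complex.I) := by
  have h1 : (((∏ i, Dk (2 * N) (x i - c * w i.castSucc)) *
      Dk (2 * N) (s - c * w (Fin.last d)) : ℝ) : ℂ) =
      ∏ j : Fin (d + 1), ((Dk (2 * N)
        ((Fin.snoc x s : Fin (d + 1) → ℝ) j - c * w j) : ℝ) : ℂ) := by
    rw [Fin.prod_univ_castSucc]
    simp only [Fin.snoc_castSucc, Fin.snoc_last]
    push_cast
    rfl
  rw [h1]
  simp only [Dk_exp]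
  rw [Finset.prod_univ_sum]
  refine Finset.sum_congr rfl fun k _ => ?_
  rw [← Complex.exp_sum, ← Complex.exp_add]
  congr 1
  rw [← Finset.mul_sum]
  have h2 : ∑ j : Fin (d + 1), ((k j : ℂ) *
      (((Fin.snoc x s : Fin (d + 1) → ℝ) j - c * w j : ℝ) : ℂ)) =
      ((∑ i : Fin d, (k i.castSucc : ℝ) * x i + k (Fin.last d) * s : ℝ) : ℂ) -
        ((c * ∑ j, (k j : ℝ) * w j : ℝ) : ℂ) := by
    have h3 : ∑ j : Fin (d + 1), ((k j : ℝ) *
        ((Fin.snoc x s : Fin (d + 1) → ℝ) j - c * w j)) =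
        (∑ i : Fin d, (k i.castSucc : ℝ) * x i + k (Fin.last d) * s) -
          (c * ∑ j, (k j : ℝ) * w j) := by
      have h4 : ∀ j : Fin (d + 1), (k j : ℝ) *
          ((Fin.snoc x s : Fin (d + 1) → ℝ) j - c * w j) =
          (k j : ℝ) * (Fin.snoc x s : Fin (d + 1) → ℝ) j - c * ((k j : ℝ) * w j) := by
        intro j
        ring
      rw [Finset.sum_congr rfl fun j _ => h4 j, Finset.sum_sub_distrib, ← Finset.mul_sum,
        Fin.sum_univ_castSucc]
      simp only [Fin.snoc_castSucc, Fin.snoc_last]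
    rw [← Complex.ofReal_sub, ← h3]
    push_cast
    rfl
  rw [h2]
  push_cast
  ring

theorem PF_expand {F : E (d + 1) → ℝ} (hF : Integrable F) (x : Fin d → ℝ) (s : ℝ) :
    (PF d N F x s : ℂ) = ∑ k ∈ Bx d N,
      𝓕 (fun w => (F w : ℂ)) (WithLp.toLp 2 fun j => (k j : ℝ) / (2 * N - 1)) *
      Complex.exp (Complex.I *
        ((∑ i : Fin d, (k i.castSucc : ℝ) * x i + k (Fin.last d) * s : ℝ) : ℂ)) := by
  have hI : ∀ k : Fin (d + 1) → ℤ, Integrable fun w : E (d + 1) =>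
      (F w : ℂ) * Complex.exp (((-(2 * Real.pi / (2 * N - 1) * ∑ j, (k j : ℝ) * w j) : ℝ) : ℂ) *
        Complex.I) := by
    intro k
    refine hF.ofReal.mul_bdd (c := 1) ?_ ?_
    · refine Continuous.aestronglyMeasurable ?_
      fun_prop
    · refine Filter.Eventually.of_forall fun w => ?_
      rw [Complex.norm_exp_ofReal_mul_I]
  have h1 : (PF d N F x s : ℂ) = ∫ w : E (d + 1), ∑ k ∈ Bx d N,
      Complex.exp (Complex.I * ((∑ i : Fin d, (k i.castSucc : ℝ) * x i +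
          k (Fin.last d) * s : ℝ) : ℂ)) *
      ((F w : ℂ) * Complex.exp (((-(2 * Real.pi / (2 * N - 1) * ∑ j, (k j : ℝ) * w j) : ℝ) : ℂ) *
        Complex.I)) := by
    unfold PF
    rw [← integral_complex_ofReal]
    refine integral_congr_ae (Filter.Eventually.of_forall fun w => ?_)
    simp only
    rw [Complex.ofReal_mul, prod_exp, Finset.mul_sum]
    refine Finset.sum_congr rfl fun k _ => ?_
    ring
  rw [h1, integral_finsetSum _ fun k _ => (hI k).const_mul _]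
  refine Finset.sum_congr rfl fun k _ => ?_
  rw [integral_const_mul, mul_comm]
  congr 1
  rw [Real.fourier_eq']
  refine integral_congr_ae (Filter.Eventually.of_forall fun w => ?_)
  simp only [smul_eq_mul]
  rw [mul_comm]
  congr 4
  rw [PiLp.inner_apply]
  simp only [RCLike.inner_apply, conj_trivial]
  rw [Finset.mul_sum, Finset.mul_sum, ← Finset.sum_neg_distrib]
  refine Finset.sum_congr rfl fun j _ => ?_
  ring

theorem PF_coeff {F : E (d + 1) → ℝ} (h : ∀ ξ ∉ bip d, 𝓕 (fun w => (F w : ℂ)) ξ = 0)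
    (k : Fin (d + 1) → ℤ) (i : Fin d) (hk : (2 * N : ℤ) - 1 < |k i.castSucc| + |k (Fin.last d)|) :
    𝓕 (fun w => (F w : ℂ)) (WithLp.toLp 2 fun j => (k j : ℝ) / (2 * N - 1)) = 0 := by
  refine h _ fun hb => ?_
  have hN : (1 : ℝ) ≤ N := by exact_mod_cast Nat.one_le_iff_ne_zero.mpr (NeZero.ne N)
  have hM : (0 : ℝ) < 2 * N - 1 := by linarith
  have h2 := hb.2 i
  simp only [abs_div, abs_of_pos hM] at h2
  rw [← add_div, div_le_one hM] at h2
  have h3 : ((2 * N : ℤ) - 1 : ℝ) < |(k i.castSucc : ℝ)| + |(k (Fin.last d) : ℝ)| := by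
    have h4 : (((2 * N : ℤ) - 1 : ℤ) : ℝ) <
        ((|k i.castSucc| + |k (Fin.last d)| : ℤ) : ℝ) := Int.cast_lt.mpr hk
    push_cast at h4 ⊢
    exact h4
  push_cast at h3
  linarith

end Pool.Agent.MPbd65ca.Bp
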