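import Pool.Agent.Lib.MP_bd65ca_an_F.PFa
import Pool.Agent.Lib.MP_bd65ca_an.Oct.Pos

/-!
# Bipyramids: the periodization is nonnegative

PROOF. Let `c k = 𝓕 F (k / M)` (`M = 2 N - 1`).  For `L ≥ 2 N` let
`P_L θ = ∫ F w * ∏_j Φ_L (θ j - (2 π / M) w j)` with the Fejér kernel
`Φ_L u = ∑_{|j| < L} (1 - |j| / L) cos (j u) = (1 / L) ‖∑_{0 ≤ j < L} e^{i j u}‖ ^ 2 ≥ 0`
(see `fejer_sum`, `fejer_nonneg`, `cw_lim` in Oct/Pos.lean).  So `P_L θ ≥ 0`.  Expanding as in
`PF_expand`, `P_L θ = ∑_{|k j| < L} (∏_j (1 - |k j| / L)) c k e^{i k·θ}`, and `c k = 0` unless all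
`|k j| ≤ 2 N - 1` (`h`: outside `bip d` the transform vanishes; for `d = 0` use the condition
`|x last| ≤ 1`), so the sum is over `k ∈ Bx d N` only, and as `L → ∞` it tends to
`∑_{k ∈ Bx} c k e^{i k·θ} = PF` (`PF_expand`).
-/

open MeasureTheory FourierTransform Pointwise Set Finset Filter Topology
open scoped RealInnerProductSpace

namespace Pool.Agent.MPbd65ca.Bp

variable {d N : ℕ} [NeZero N]

private noncomputable def gker (L : ℕ) (u : ℝ) : ℝ :=
  ∑ k ∈ Ioo (-(L : ℤ)) L, Oct.Pos.cw L k * Real.cos (k * u)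

private theorem gker_exp (L : ℕ) (u : ℝ) : (gker L u : ℂ) = ∑ k ∈ Ioo (-(L : ℤ)) L,
    (Oct.Pos.cw L k : ℂ) * Complex.exp (Complex.I * (k * u)) := by
  have h1 : ∑ k ∈ Ioo (-(L : ℤ)) L, Oct.Pos.cw L k * Real.sin (k * u) = 0 := by
    have h2 : ∑ k ∈ Ioo (-(L : ℤ)) L, Oct.Pos.cw L k * Real.sin (k * u) =
        ∑ k ∈ Ioo (-(L : ℤ)) L, -(Oct.Pos.cw L k * Real.sin (k * u)) := by
      refine Finset.sum_nbij' (fun k => -k) (fun k => -k) ?_ ?_ ?_ ?_ ?_
      · intro k hk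
        rw [Finset.mem_Ioo] at hk ⊢
        omega
      · intro k hk
        rw [Finset.mem_Ioo] at hk ⊢
        omega
      · intro k _
        exact neg_neg k
      · intro k _
        exact neg_neg k
      · intro k _
        simp only [Oct.Pos.cw, Int.natAbs_neg, Int.cast_neg, neg_mul, Real.sin_neg]
        ring
    rw [Finset.sum_neg_distrib] at h2
    linarith
  have h3 : ∀ k : ℤ, (Oct.Pos.cw L k : ℂ) * Complex.exp (Complex.I * (k * u)) =
      ((Oct.Pos.cw L k * Real.cos (k * u) : ℝ) : ℂ) +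
        Complex.I * ((Oct.Pos.cw L k * Real.sin (k * u) : ℝ) : ℂ) := by
    intro k
    rw [mul_comm Complex.I, Complex.exp_mul_I]
    push_cast
    ring
  simp_rw [h3]
  rw [Finset.sum_add_distrib, ← Finset.mul_sum, ← Complex.ofReal_sum, ← Complex.ofReal_sum, h1,
    Complex.ofReal_zero, mul_zero, add_zero]
  rfl

/-- The coefficients. -/
private noncomputable def ck (d N : ℕ) (F : E (d + 1) → ℝ) (k : Fin (d + 1) → ℤ) : ℂ :=
  𝓕 (fun w => (F w : ℂ)) (WithLp.toLp 2 fun j => (k j : ℝ) / (2 * N - 1))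

omit [NeZero N] in
private theorem int_exp (F : E (d + 1) → ℝ) (θ : Fin (d + 1) → ℝ) (k : Fin (d + 1) → ℤ) :
    ∫ w : E (d + 1), (F w : ℂ) * ∏ j, Complex.exp (Complex.I * (k j *
      ((θ j - 2 * Real.pi / (2 * N - 1) * w j : ℝ) : ℂ))) =
    ck d N F k * Complex.exp (Complex.I * ((∑ j, (k j : ℝ) * θ j : ℝ) : ℂ)) := by
  unfold ck
  rw [Real.fourier_eq', ← integral_mul_const]
  refine integral_congr_ae (Filter.Eventually.of_forall fun w => ?_)
  have hin : ⟪w, (WithLp.toLp 2 fun j => (k j : ℝ) / (2 * N - 1) : E (d + 1))⟫ =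
      ∑ j, (k j : ℝ) / (2 * N - 1) * w j := by
    simp [PiLp.inner_apply]
  beta_reduce
  rw [← Complex.exp_sum, smul_eq_mul, hin]
  have h1 : ∑ j, Complex.I * (k j * ((θ j - 2 * Real.pi / (2 * N - 1) * w j : ℝ) : ℂ)) =
      ((-2 * Real.pi * ∑ j, (k j : ℝ) / (2 * N - 1) * w j : ℝ) : ℂ) * Complex.I +
        Complex.I * ((∑ j, (k j : ℝ) * θ j : ℝ) : ℂ) := by
    push_cast
    rw [Finset.mul_sum, Finset.sum_mul, Finset.mul_sum, ← Finset.sum_add_distrib]
    refine Finset.sum_congr rfl fun j _ => ?_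
    ring
  rw [h1, Complex.exp_add]
  ring

omit [NeZero N] in
private theorem PL_expand {F : E (d + 1) → ℝ} (hF : Integrable F) (θ : Fin (d + 1) → ℝ) (L : ℕ) :
    ((∫ w : E (d + 1), F w * ∏ j, gker L (θ j - 2 * Real.pi / (2 * N - 1) * w j) : ℝ) : ℂ) =
    ∑ k ∈ Fintype.piFinset (fun _ : Fin (d + 1) => Ioo (-(L : ℤ)) L),
      (∏ j, (Oct.Pos.cw L (k j) : ℂ)) *
        (ck d N F k * Complex.exp (Complex.I * ((∑ j, (k j : ℝ) * θ j : ℝ) : ℂ))) := by
  rw [← integral_complex_ofReal]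
  have h1 : ∀ w : E (d + 1), ((F w * ∏ j, gker L (θ j - 2 * Real.pi / (2 * N - 1) * w j) : ℝ) : ℂ) =
      ∑ k ∈ Fintype.piFinset (fun _ : Fin (d + 1) => Ioo (-(L : ℤ)) L),
      (∏ j, (Oct.Pos.cw L (k j) : ℂ)) * ((F w : ℂ) * ∏ j, Complex.exp (Complex.I * (k j *
      ((θ j - 2 * Real.pi / (2 * N - 1) * w j : ℝ) : ℂ)))) := by
    intro w
    rw [Complex.ofReal_mul, Complex.ofReal_prod]
    simp_rw [gker_exp]
    rw [Finset.prod_univ_sum, Finset.mul_sum]
    refine Finset.sum_congr rfl fun k _ => ?_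
    rw [Finset.prod_mul_distrib]
    ring
  simp_rw [h1]
  rw [integral_finsetSum]
  · refine Finset.sum_congr rfl fun k _ => ?_
    rw [integral_const_mul, int_exp]
  · intro k _
    refine Integrable.const_mul ?_ _
    refine hF.ofReal.mul_bdd (c := 1) ?_ ?_
    · refine Continuous.aestronglyMeasurable ?_
      fun_prop
    · refine Filter.Eventually.of_forall fun w => ?_
      rw [norm_prod]
      refine Finset.prod_le_one (fun j _ => norm_nonneg _) fun j _ => ?_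
      have h2 : Complex.I * (k j * ((θ j - 2 * Real.pi / (2 * N - 1) * w j : ℝ) : ℂ)) =
          ((k j * (θ j - 2 * Real.pi / (2 * N - 1) * w j) : ℝ) : ℂ) * Complex.I := by
        push_cast
        ring
      rw [h2, Complex.norm_exp_ofReal_mul_I]

private theorem ck_zero {F : E (d + 1) → ℝ} (h : ∀ ξ ∉ bip d, 𝓕 (fun w => (F w : ℂ)) ξ = 0)
    (k : Fin (d + 1) → ℤ) (j : Fin (d + 1)) (hj : (2 * N : ℤ) ≤ |k j|) : ck d N F k = 0 := by
  have hN : (1 : ℝ) ≤ N := by exact_mod_cast Nat.one_le_iff_ne_zero.2 (NeZero.ne N)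
  have hM : (0 : ℝ) < 2 * N - 1 := by linarith
  have h3 : 1 < |(k j : ℝ) / (2 * N - 1)| := by
    rw [abs_div, abs_of_pos hM, lt_div_iff₀ hM]
    have h4 : (2 * N : ℝ) ≤ |(k j : ℝ)| := by exact_mod_cast hj
    linarith
  refine h _ fun hmem => ?_
  obtain ⟨h1, h2⟩ := hmem
  rcases Fin.eq_castSucc_or_eq_last j with ⟨i, rfl⟩ | rfl
  · have h4 := h2 i
    have h5 : |(k i.castSucc : ℝ) / (2 * N - 1)| + |(k (Fin.last d) : ℝ) / (2 * N - 1)| ≤ 1 := h4
    linarith [abs_nonneg ((k (Fin.last d) : ℝ) / (2 * N - 1))]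
  · have h5 : |(k (Fin.last d) : ℝ) / (2 * N - 1)| ≤ 1 := h1
    linarith

theorem PF_nonneg {F : E (d + 1) → ℝ} (hF : Integrable F) (h0 : ∀ w, 0 ≤ F w)
    (h : ∀ ξ ∉ bip d, 𝓕 (fun w => (F w : ℂ)) ξ = 0) (x : Fin d → ℝ) (s : ℝ) :
    0 ≤ PF d N F x s := by
  let θ : Fin (d + 1) → ℝ := Fin.snoc x s
  have hθ1 : ∀ i : Fin d, θ i.castSucc = x i := fun i => by simp [θ]
  have hθ2 : θ (Fin.last d) = s := by simp [θ]
  let T : (Fin (d + 1) → ℤ) → ℂ := fun k =>
    ck d N F k * Complex.exp (Complex.I * ((∑ j, (k j : ℝ) * θ j : ℝ) : ℂ))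
  have hPF : (PF d N F x s : ℂ) = ∑ k ∈ Bx d N, T k := by
    rw [PF_expand hF]
    refine Finset.sum_congr rfl fun k _ => ?_
    simp only [T, ck, Fin.sum_univ_castSucc, hθ1, hθ2]
  have hT : ∀ k, k ∉ Bx d N → T k = 0 := by
    intro k hk
    have h1 : ∃ j, (2 * N : ℤ) ≤ |k j| := by
      by_contra hcon
      push Not at hcon
      refine hk (Fintype.mem_piFinset.2 fun j => ?_)
      have h2 := abs_lt.1 (hcon j)
      rw [Finset.mem_Ioo]
      push_cast
      exact h2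
    obtain ⟨j, hj⟩ := h1
    simp only [T]
    rw [ck_zero h k j hj, zero_mul]
  have hlim : Tendsto (fun L : ℕ => ∑ k ∈ Bx d N,
      (∏ j, ((Oct.Pos.cw L (k j) / L : ℝ) : ℂ)) * T k) atTop (𝓝 (∑ k ∈ Bx d N, T k)) := by
    refine tendsto_finsetSum _ fun k _ => ?_
    have h1 : Tendsto (fun L : ℕ => ∏ j, ((Oct.Pos.cw L (k j) / L : ℝ) : ℂ)) atTop
        (𝓝 (∏ _j : Fin (d + 1), ((1 : ℝ) : ℂ))) := by
      refine tendsto_finsetProd _ fun j _ => ?_
      exact (Complex.continuous_ofReal.tendsto 1).comp (Oct.Pos.cw_lim (k j))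
    have h2 := h1.mul_const (T k)
    rw [Finset.prod_const, Complex.ofReal_one, one_pow, one_mul] at h2
    exact h2
  have hre := (Complex.continuous_re.tendsto _).comp hlim
  rw [← hPF, Complex.ofReal_re] at hre
  refine ge_of_tendsto hre ?_
  filter_upwards [Filter.eventually_ge_atTop (2 * N), Filter.eventually_ge_atTop 1] with L hL hL1
  have hsub : Bx d N ⊆ Fintype.piFinset (fun _ : Fin (d + 1) => Ioo (-(L : ℤ)) L) := by
    intro k hk
    rw [Bx, Fintype.mem_piFinset] at hk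
    rw [Fintype.mem_piFinset]
    intro j
    have h1 := Finset.mem_Ioo.1 (hk j)
    rw [Finset.mem_Ioo]
    constructor
    · have h2 : ((2 * N : ℕ) : ℤ) ≤ L := by exact_mod_cast hL
      linarith [h1.1]
    · have h2 : ((2 * N : ℕ) : ℤ) ≤ L := by exact_mod_cast hL
      linarith [h1.2]
  have h1 : ∑ k ∈ Bx d N, (∏ j, ((Oct.Pos.cw L (k j) / L : ℝ) : ℂ)) * T k =
      ((1 / (L : ℝ) ^ (d + 1) * ∫ w : E (d + 1), F w * ∏ j, gker L (θ j -
        2 * Real.pi / (2 * N - 1) * w j) : ℝ) : ℂ) := by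
    rw [Complex.ofReal_mul, PL_expand hF θ L, Finset.mul_sum]
    rw [Finset.sum_subset hsub]
    · refine Finset.sum_congr rfl fun k _ => ?_
      have h3 : (∏ j, ((Oct.Pos.cw L (k j) / L : ℝ) : ℂ)) =
          ((1 / (L : ℝ) ^ (d + 1) : ℝ) : ℂ) * ∏ j, (Oct.Pos.cw L (k j) : ℂ) := by
        simp only [Complex.ofReal_div, Complex.ofReal_natCast]
        rw [Finset.prod_div_distrib, Finset.prod_const, Finset.card_univ, Fintype.card_fin]
        push_cast
        ring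
      rw [h3, mul_assoc]
    · intro k _ hk
      rw [hT k hk, mul_zero]
  change 0 ≤ (∑ k ∈ Bx d N, (∏ j, ((Oct.Pos.cw L (k j) / L : ℝ) : ℂ)) * T k).re
  rw [h1, Complex.ofReal_re]
  refine mul_nonneg (by positivity) (integral_nonneg fun w => ?_)
  exact mul_nonneg (h0 w) (Finset.prod_nonneg fun j _ => Oct.Pos.fejer_nonneg L _)

end Pool.Agent.MPbd65ca.Bp
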